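import Pool.Agent.Lib.MP_761168_co.F.P1_58

/-!
Full Jucovic-Moon: case B1 (helper94, page JMfull58.md).
-/

namespace MP_761168_co

open Finset

noncomputable section

open scoped Classical

variable {V : Type*} [Fintype V] {G : SimpleGraph V} {r : ℕ}

namespace B1_94

theorem mem_WW {D : Finset V} {s v : V} {k : ℕ} :
    v ∈ WW G D s k ↔ v ∉ D ∧ v ∉ nb G D ∧ k < G.dist s v := by simp [WW]

theorem mem_ZZ {D : Finset V} {s u w v : V} {k : ℕ} :
    v ∈ ZZ G D s u w k ↔ (G.dist s v = k ∧ v ∉ D) ∨ ((v = u ∨ v = w) ∧ k < G.dist s v) := by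
  simp [ZZ, mem_lev]

/-- `R_k`: vertices outside `D` and its cut at distance less than `k` from `s`. -/
def RR (G : SimpleGraph V) (D : Finset V) (s : V) (k : ℕ) : Finset V :=
  univ.filter fun v => v ∉ D ∧ v ∉ nb G D ∧ G.dist s v < k

theorem mem_RR {D : Finset V} {s v : V} {k : ℕ} :
    v ∈ RR G D s k ↔ v ∉ D ∧ v ∉ nb G D ∧ G.dist s v < k := by simp [RR]

/-- Neighbours of a vertex outside of `D` and its neighbourhood are outside of `D`. -/
theorem out {D : Finset V} {x v : V} (hx : x ∉ D) (hx' : x ∉ nb G D) (h : G.Adj x v) :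
    v ∉ D := fun hv => hx' (mem_nb.2 ⟨hx, v, hv, h.symm⟩)

/-- Case B1 with explicit data. -/
theorem core (H : Hyp G r) {D : Finset V} (hD : Light G r D)
    (hmax : ∀ A, Light G r A → D ⊆ A → A ⊆ D) {s u w z : V} (hN : nb G D = {s, u, w})
    (hsu : s ≠ u) (hsw : s ≠ w) (huw : u ≠ w) {k : ℕ} (hk : 2 ≤ k) (hu : G.dist s u = k)
    (hw : k < G.dist s w) (hzu : z ≠ u) (hz : z ∉ D)
    (hlev : ∀ v, v ∉ D → G.dist s v = k → v = u ∨ v = z) (hzk : G.dist s z = k)
    (hR : (RR G D s k).Nonempty) (hW : Light G r (WW G D s k))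
    (hNW : u ∈ nb G (WW G D s k)) : False := by
  have hr := H.r3
  have hzN : z ∉ nb G D := by
    rw [hN]
    simp only [mem_insert, mem_singleton, not_or]
    refine ⟨?_, hzu, ?_⟩
    · rintro rfl
      rw [SimpleGraph.dist_self] at hzk
      omega
    · rintro rfl
      omega
  have hsN : s ∈ nb G D := by rw [hN]; simp
  have huN : u ∈ nb G D := by rw [hN]; simp
  have hwN : w ∈ nb G D := by rw [hN]; simp
  -- the neighbourhood of R
  have hNR : nb G (RR G D s k) ⊆ {s, u, z} := by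
    intro v hv
    rw [mem_nb] at hv
    obtain ⟨hv1, x, hx, hxv⟩ := hv
    rw [mem_RR] at hx
    have hvD : v ∉ D := out hx.1 hx.2.1 hxv
    have hd := dist_adj_le H.conn s hxv
    by_cases hvN : v ∈ nb G D
    · rw [hN] at hvN
      simp only [mem_insert, mem_singleton] at hvN ⊢
      rcases hvN with rfl | rfl | rfl
      · exact Or.inl rfl
      · exact Or.inr (Or.inl rfl)
      · omega
    · rw [mem_RR] at hv1
      have hvk : G.dist s v = k := by
        by_contra hne
        exact hv1 ⟨hvD, hvN, by omega⟩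
      rcases hlev v hvD hvk with rfl | rfl
      · exact absurd huN hvN
      · simp
  obtain ⟨d0, hd0⟩ := hD.1
  have hd0R : d0 ∉ RR G D s k := fun h => (mem_RR.1 h).1 hd0
  have hd0Z : d0 ∉ ({s, u, z} : Finset V) := by
    simp only [mem_insert, mem_singleton, not_or]
    refine ⟨?_, ?_, ?_⟩
    · rintro rfl
      exact (mem_nb.1 hsN).1 hd0
    · rintro rfl
      exact (mem_nb.1 huN).1 hd0
    · rintro rfl
      exact hz hd0
  have hsz : s ≠ z := by
    rintro rfl
    rw [SimpleGraph.dist_self] at hzk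
    omega
  have hc3 : ({s, u, z} : Finset V).card = 3 := by
    rw [card_insert_of_notMem, card_pair (Ne.symm hzu)]
    simp only [mem_insert, mem_singleton, not_or]
    exact ⟨hsu, hsz⟩
  have hNR' : nb G (RR G D s k) = {s, u, z} :=
    nb_eq_of_three H.c3 hR hNR hd0R hd0Z hc3
  have hRu : RR G D s k ∪ nb G (RR G D s k) ≠ univ := by
    intro h
    have h2 : d0 ∈ RR G D s k ∪ nb G (RR G D s k) := by rw [h]; exact mem_univ _
    rw [hNR', mem_union] at h2
    rcases h2 with h2 | h2
    · exact hd0R h2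
    · exact hd0Z h2
  have hRL : Light G r (RR G D s k) := by
    rcases dichotomy H hR (by rw [hNR', hc3]) hRu with h | h
    · exact h
    · exfalso
      have h1 : D ⊆ (RR G D s k ∪ nb G (RR G D s k))ᶜ := by
        intro v hv
        rw [mem_compl, mem_union, hNR']
        rintro (h2 | h2)
        · exact (mem_RR.1 h2).1 hv
        · simp only [mem_insert, mem_singleton] at h2
          rcases h2 with rfl | rfl | rfl
          · exact (mem_nb.1 hsN).1 hv
          · exact (mem_nb.1 huN).1 hv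
          · exact hz hv
      have h2 := hmax _ h h1
      have h3 : w ∈ (RR G D s k ∪ nb G (RR G D s k))ᶜ := by
        rw [mem_compl, mem_union, hNR']
        rintro (h3 | h3)
        · have := (mem_RR.1 h3).2.2
          omega
        · simp only [mem_insert, mem_singleton] at h3
          rcases h3 with h3 | h3 | h3
          · exact hsw h3.symm
          · exact huw h3.symm
          · rw [h3] at hw
            omega
      exact (mem_nb.1 hwN).1 (h2 h3)
  -- no vertex is far from `u`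
  obtain ⟨y, hy⟩ := H.ecc u
  have hnot : ¬ G.dist u y < r := by omega
  apply hnot
  by_cases hyD : y ∈ D
  · exact hD.2.2.2 u huN y hyD
  by_cases hyN : y ∈ nb G D
  · exact cut_close H hD.1 hD.2.1 hD.2.2.1 huN hyN
  rcases lt_trichotomy (G.dist s y) k with h | h | h
  · exact hRL.2.2.2 u (by rw [hNR']; simp) y (mem_RR.2 ⟨hyD, hyN, h⟩)
  · rcases hlev y hyD h with rfl | rfl
    · exact absurd huN hyN
    · exact cut_close H hRL.1 hRL.2.1 hRL.2.2.1 (by rw [hNR']; simp) (by rw [hNR']; simp)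
  · exact hW.2.2.2 u hNW y (mem_WW.2 ⟨hyD, hyN, h⟩)

end B1_94

open B1_94 in
/-- (B1) -/
theorem case_B1_94 (H : Hyp G r) {D : Finset V} {s u w : V} {k : ℕ} (hM : MaxL G r D)
    (hC : Cut G D s u w) (hk : k ∈ QQ G r D s u w) (_hmin : ∀ j ∈ QQ G r D s u w, k ≤ j)
    (_hex : EX G r D s u w = 0) (hu : G.dist s u = k) (hw : k < G.dist s w) (hk4 : 4 ≤ k) :
    False := by
  have hk' : (1 ≤ k ∧ k ≤ r - 1) ∧ (ZZ G D s u w k).card = 3 := by
    unfold QQ at hk
    rw [mem_filter, mem_Icc] at hk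
    exact hk
  obtain ⟨⟨hk1, hk2⟩, hZ3⟩ := hk'
  obtain ⟨hWL, hWN⟩ := ww_light H hM hC hk1 hk2 hZ3
  have hsN : s ∈ nb G D := by rw [hC.eq]; simp
  have huN : u ∈ nb G D := by rw [hC.eq]; simp
  have hwN : w ∈ nb G D := by rw [hC.eq]; simp
  have huD : u ∉ D := (mem_nb.1 huN).1
  have hwD : w ∉ D := (mem_nb.1 hwN).1
  have huZ : u ∈ ZZ G D s u w k := mem_ZZ.2 (Or.inl ⟨hu, huD⟩)
  have hwZ : w ∈ ZZ G D s u w k := mem_ZZ.2 (Or.inr ⟨Or.inr rfl, hw⟩)
  -- the third element of the cut of `W`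
  have h1 : (((ZZ G D s u w k).erase u).erase w).card = 1 := by
    rw [card_erase_of_mem (mem_erase.2 ⟨fun h => hC.uw h.symm, hwZ⟩), card_erase_of_mem huZ, hZ3]
  obtain ⟨z, hz⟩ := card_eq_one.1 h1
  have hz1 : z ∈ ((ZZ G D s u w k).erase u).erase w := by rw [hz]; simp
  rw [mem_erase, mem_erase] at hz1
  obtain ⟨hzw, hzu, hzZ⟩ := hz1
  have hzl : G.dist s z = k ∧ z ∉ D := by
    rcases mem_ZZ.1 hzZ with h | h
    · exact h
    · rcases h.1 with h' | h'
      · exact absurd h' hzu
      · exact absurd h' hzw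
  have hlev : ∀ v, v ∉ D → G.dist s v = k → v = u ∨ v = z := by
    intro v hv hvk
    by_contra hcon
    rw [not_or] at hcon
    have h2 : v ∈ ((ZZ G D s u w k).erase u).erase w := by
      rw [mem_erase, mem_erase]
      refine ⟨?_, hcon.1, mem_ZZ.2 (Or.inl ⟨hvk, hv⟩)⟩
      rintro rfl
      omega
    rw [hz, mem_singleton] at h2
    exact hcon.2 h2
  -- level one
  have h3 := zz_three H hM hC (k := 1) (le_refl 1) (by omega)
  have hR : (RR G D s k).Nonempty := by
    have h4 : 0 < (((ZZ G D s u w 1).erase u).erase w).card := by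
      have h5 := pred_card_le_card_erase (s := ZZ G D s u w 1) (a := u)
      have h6 := pred_card_le_card_erase (s := (ZZ G D s u w 1).erase u) (a := w)
      omega
    obtain ⟨v, hv⟩ := card_pos.1 h4
    rw [mem_erase, mem_erase] at hv
    obtain ⟨hvw, hvu, hvZ⟩ := hv
    have hvl : G.dist s v = 1 ∧ v ∉ D := by
      rcases mem_ZZ.1 hvZ with h | h
      · exact h
      · rcases h.1 with h' | h'
        · exact absurd h' hvu
        · exact absurd h' hvw
    refine ⟨v, mem_RR.2 ⟨hvl.2, ?_, by omega⟩⟩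
    rw [hC.eq]
    simp only [mem_insert, mem_singleton, not_or]
    refine ⟨?_, hvu, hvw⟩
    rintro rfl
    rw [SimpleGraph.dist_self] at hvl
    omega
  refine core H hM.1 (fun A hA hDA => hM.2 A hA ?_) hC.eq hC.su hC.sw hC.uw (by omega) hu hw
    hzu hzl.2 hlev hzl.1 hR hWL (by rw [hWN]; exact huZ)
  obtain ⟨d, hd⟩ := hM.1.1
  exact ⟨d, mem_inter.2 ⟨hDA hd, hd⟩⟩

end

end MP_761168_co
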