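import Pool.Agent.Lib.MP_761168_co.F.Defs58

/-!
Rows `tri_dist` and `case_B2` of the full answer (page JMfull58.md, section 4, case B2), helper29.
-/

namespace MP_761168_co

open Finset

noncomputable section

open scoped Classical

variable {V : Type*} [Fintype V] {G : SimpleGraph V} {r : ℕ}

/-- In a tripod every vertex at distance `k < ga` from the terminal `w` has a neighbour
at distance `k + 1`. -/
theorem tri_up29 (hc : G.Connected) (h3 : C3 G) {D : Finset V} {s u w : V} {al be ga : ℕ}
    (hC : Cut G D s u w) (hB : D ∪ nb G D ≠ univ) (hT : Tri G D s u w al be ga) {v : V}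
    (hv : v ∈ D) (hk : G.dist w v < ga) :
    ∃ v' ∈ D, G.Adj v v' ∧ G.dist w v' = G.dist w v + 1 := by
  by_contra hcon
  push Not at hcon
  have hwS : w ∈ nb G D := by rw [hC.eq]; simp
  have hwD : w ∉ D := (mem_nb.1 hwS).1
  obtain ⟨y, hy⟩ : ∃ y, y ∉ D ∪ nb G D := by
    by_contra h
    push Not at h
    exact hB (eq_univ_iff_forall.2 h)
  rw [mem_union, not_or] at hy
  set k := G.dist w v with hkdef
  have hk1 : 1 ≤ k := by
    have : 0 < G.dist w v := hc.pos_dist_of_ne (by rintro rfl; exact hwD hv)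
    omega
  have hal := hT.al2
  have hbe := hT.be2
  have hb := hT.hb
  have hcc := hT.hc
  set X : Finset V := insert v (D.filter (fun x => G.dist w x < k)) with hX
  set Z : Finset V := insert w ((lev G w k ∩ D).erase v) with hZ
  have memX : ∀ x, x ∈ X ↔ x = v ∨ (x ∈ D ∧ G.dist w x < k) := by
    intro x; simp [hX]
  have hXD : ∀ x ∈ X, x ∈ D ∧ G.dist w x ≤ k := by
    intro x hx
    rcases (memX x).1 hx with h | h
    · rw [h]; exact ⟨hv, le_refl _⟩
    · exact ⟨h.1, h.2.le⟩
  have hsub : nb G X ⊆ Z := by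
    intro y' hy'
    rw [mem_nb] at hy'
    obtain ⟨hyX, x, hxX, hxy⟩ := hy'
    have hx := hXD x hxX
    have hd := dist_adj_le hc w hxy
    rw [hZ, mem_insert]
    rcases mem_or_nb hx.1 hxy with h | h
    · right
      rw [mem_erase, mem_inter, mem_lev]
      have hne : y' ≠ v := by
        rintro rfl; exact hyX ((memX _).2 (Or.inl rfl))
      have hge : ¬ G.dist w y' < k := fun h' => hyX ((memX _).2 (Or.inr ⟨h, h'⟩))
      refine ⟨hne, ?_, h⟩
      rcases (memX x).1 hxX with h' | h'
      · rw [h'] at hxy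
        have := hcon y' h hxy
        rw [h'] at hd
        omega
      · omega
    · rw [hC.eq] at h
      simp only [mem_insert, mem_singleton] at h
      rcases h with h | h | h
      · rw [h, SimpleGraph.dist_comm, hb] at hd; omega
      · rw [h, SimpleGraph.dist_comm, hcc] at hd; omega
      · exact Or.inl h
  have hlev : (lev G w k ∩ D).card ≤ 2 := by
    rcases Nat.lt_or_ge 1 k with h | h
    · rw [hT.two_w k h hk.le]
    · have : k = 1 := by omega
      rw [this, hT.one_w]; omega
  have hvl : v ∈ lev G w k ∩ D := by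
    rw [mem_inter, mem_lev]; exact ⟨rfl, hv⟩
  have hZc : Z.card ≤ 2 := by
    have h1 : Z.card ≤ ((lev G w k ∩ D).erase v).card + 1 := card_insert_le _ _
    have h2 : ((lev G w k ∩ D).erase v).card = (lev G w k ∩ D).card - 1 :=
      card_erase_of_mem hvl
    have h0 : 0 < (lev G w k ∩ D).card := card_pos.2 ⟨v, hvl⟩
    omega
  have h3' : 3 ≤ Z.card := by
    refine three_le h3 (X := X) (y := y) ⟨v, (memX v).2 (Or.inl rfl)⟩ hsub ?_ ?_
    · intro h; exact hy.1 (hXD y h).1
    · rw [hZ, mem_insert, not_or]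
      refine ⟨?_, ?_⟩
      · rintro rfl; exact hy.2 hwS
      · intro h
        rw [mem_erase, mem_inter] at h
        exact hy.1 h.2.2
  omega

/-- up-neighbours -/
theorem tri_dist (hc : G.Connected) (h3 : C3 G) {D : Finset V} {s u w : V} {al be ga : ℕ}
    (hC : Cut G D s u w) (hB : D ∪ nb G D ≠ univ) (hT : Tri G D s u w al be ga) {v : V}
    (hv : v ∈ D) (hk : G.dist w v ≤ ga) : G.dist s v + G.dist w v ≤ al + ga := by
  obtain ⟨m, hm⟩ : ∃ m, m = ga - G.dist w v := ⟨_, rfl⟩
  induction m generalizing v with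
  | zero =>
    have h1 : G.dist w v = ga := by omega
    have h2 : v ∈ lev G s al ∩ D := by
      rw [hT.cen_w, mem_inter, mem_lev]; exact ⟨h1, hv⟩
    rw [mem_inter, mem_lev] at h2
    omega
  | succ m ih =>
    obtain ⟨v', hv', hadj, hd⟩ := tri_up29 hc h3 hC hB hT hv (by omega)
    have h1 := ih hv' (by omega) (by omega)
    have h2 := dist_adj_le hc s hadj.symm
    omega

/-- (B2) -/
theorem case_B2 (hc : G.Connected) (h3 : C3 G) {W : Finset V} {s z₁ z₂ w y : V} {k q : ℕ}
    {al be ga : ℕ} (hC : Cut G W z₁ z₂ w) (hB : W ∪ nb G W ≠ univ)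
    (hT : Tri G W z₁ z₂ w al be ga) (hk5 : 5 ≤ k) (hq4 : 4 ≤ q)
    (h1 : G.dist s z₁ = k) (h2 : G.dist s z₂ = k) (hw : G.dist s w = q + 2)
    (hkq : k < q + 2) (hcard : W.card + 4 = 2 * q + k) (hW : ∀ v ∈ W, k < G.dist s v)
    (hl : (W.filter (fun v => G.dist s v = k + 2)).card ≤ 3)
    (hsz : G.dist z₁ z₂ + G.dist z₁ w + G.dist z₂ w = W.card + 7)
    (hy : y ∈ W) (hfar : k + q ≤ G.dist s y) : False := by
  have hal := hT.al2
  have hbe := hT.be2
  have hga := hT.ga2
  have ha := hT.ha
  have hb := hT.hb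
  have hcc := hT.hc
  -- the vertices at distance two from `z` are in the level `k + 2`
  have key : ∀ z z', G.dist s z = k → G.dist z z' = al + be →
      (∀ x ∈ nb G W, x = z ∨ x = z' ∨ x = w) →
      lev G z 2 ∩ W ⊆ W.filter (fun v => G.dist s v = k + 2) := by
    intro z z' hz hzz hall v hv
    rw [mem_inter, mem_lev] at hv
    obtain ⟨hv2, hvW⟩ := hv
    rw [mem_filter]
    refine ⟨hvW, ?_⟩
    have hlo := hW v hvW
    have hup := hc.dist_triangle (u := s) (v := z) (w := v)
    by_contra hne
    have hk1 : G.dist s v = k + 1 := by omega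
    have hsv : s ≠ v := by
      rintro rfl; rw [SimpleGraph.dist_self] at hk1; omega
    obtain ⟨x, hxv, hx⟩ := exists_pred hc hsv
    have hxk : G.dist s x = k := by omega
    rcases mem_or_nb hvW hxv.symm with h | h
    · have := hW x h; omega
    · rcases hall x h with h' | h' | h'
      · rw [h'] at hxv
        have := SimpleGraph.dist_eq_one_iff_adj.2 hxv
        omega
      · rw [h'] at hxv
        have h5 := dist_adj_le hc z hxv.symm
        omega
      · rw [h'] at hxk; omega
  have hk1 := key z₁ z₂ h1 ha (by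
    intro x hx; rw [hC.eq] at hx; simpa using hx)
  have hk2 := key z₂ z₁ h2 (by rw [SimpleGraph.dist_comm]; exact ha) (by
    intro x hx; rw [hC.eq] at hx
    simp only [mem_insert, mem_singleton] at hx
    tauto)
  -- they meet
  have hne : ¬ Disjoint (lev G z₁ 2 ∩ W) (lev G z₂ 2 ∩ W) := by
    intro hd
    have h4 : ((lev G z₁ 2 ∩ W) ∪ (lev G z₂ 2 ∩ W)).card ≤ 3 :=
      (card_le_card (union_subset hk1 hk2)).trans hl
    rw [card_union_of_disjoint hd, hT.two_s 2 (le_refl _) hal, hT.two_u 2 (le_refl _) hbe] at h4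
    omega
  rw [not_disjoint_iff] at hne
  obtain ⟨x, hx1, hx2⟩ := hne
  rw [mem_inter, mem_lev] at hx1 hx2
  have h4 := hc.dist_triangle (u := z₁) (v := x) (w := z₂)
  rw [SimpleGraph.dist_comm (u := x) (v := z₂)] at h4
  have hal' : al = 2 := by omega
  have hbe' : be = 2 := by omega
  -- the far vertex
  have hd1 := hc.dist_triangle (u := s) (v := z₁) (w := y)
  have hd2 := hc.dist_triangle (u := s) (v := z₂) (w := y)
  have hd3 := hc.dist_triangle (u := s) (v := w) (w := y)
  have hwy : G.dist w y + 1 ≤ ga := by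
    rcases hT.part y hy with h | h | h
    · omega
    · omega
    · exact h
  have h5 := tri_dist hc h3 hC hB hT hy (by omega)
  omega

end

end MP_761168_co
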