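import Pool.Agent.Lib.MP_761168_co.X.JM1_56

/-!
Radius of 3-connected graphs, section 2 of the page JM56.md (helper51): the members of a cut of
size three are near each other.  The count of section 1 is an explicit hypothesis.
-/

namespace MP_761168_co

open Finset

noncomputable section

open scoped Classical

variable {V : Type*} [Fintype V] {G : SimpleGraph V} {r : ℕ}

theorem nbc_sub51 (A : Finset V) : nb G (A ∪ nb G A)ᶜ ⊆ nb G A := by
  intro v hv
  rw [mem_nb] at hv
  obtain ⟨h1, x, hx, hxv⟩ := hv
  rw [mem_compl, not_not, mem_union] at h1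
  rcases h1 with h1 | h1
  · exfalso
    rw [mem_compl, mem_union] at hx
    exact hx (mem_or_nb h1 hxv.symm)
  · exact h1

/-- One side of the cut, counted by the distance from a member. -/
theorem side_ge51 (h3 : C3 G) (hcn : G.Connected) {C : Finset V} {s y : V} (hs : s ∈ nb G C)
    {i : ℕ} (h2 : 2 ≤ i) (hy : y ∉ C) (hyi : i < G.dist s y) :
    3 ≤ (C ∩ lev G s i).card + ((nb G C).filter (fun p => G.dist s p ≤ i)).card := by
  have hX : (C ∩ low G s i).Nonempty := by
    obtain ⟨h1, x, hx, hxs⟩ := mem_nb.1 hs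
    refine ⟨x, mem_inter.2 ⟨hx, mem_low.2 ?_⟩⟩
    have : G.dist s x = 1 := SimpleGraph.dist_eq_one_iff_adj.2 hxs.symm
    omega
  have h4 : nb G (C ∩ low G s i) ⊆
      (C ∩ lev G s i) ∪ (nb G C).filter (fun p => G.dist s p ≤ i) := by
    intro v hv
    obtain ⟨h5, x, hx, hxv⟩ := mem_nb.1 hv
    rw [mem_inter, mem_low] at hx
    have h6 := dist_adj_le hcn s hxv
    rw [mem_union]
    by_cases hvC : v ∈ C
    · left
      rw [mem_inter, mem_lev]
      refine ⟨hvC, ?_⟩
      have h7 : ¬ G.dist s v < i := fun h => h5 (mem_inter.2 ⟨hvC, mem_low.2 h⟩)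
      omega
    · right
      rw [mem_filter]
      refine ⟨mem_nb.2 ⟨hvC, x, hx.1, hxv⟩, ?_⟩
      omega
  have h8 := three_le h3 (y := y) hX h4 (fun h => hy (mem_inter.1 h).1) (by
    rw [mem_union, mem_inter, mem_filter]
    rintro (h | h)
    · exact hy h.1
    · omega)
  exact h8.trans (card_union_le _ _)

theorem low_succ51 (s : V) (k : ℕ) (C : Finset V) :
    (C ∩ low G s (k + 1)).card = (C ∩ low G s k).card + (C ∩ lev G s k).card := by
  rw [← card_union_of_disjoint]
  · congr 1
    ext v
    simp only [mem_union, mem_inter, mem_low, mem_lev]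
    constructor
    · rintro ⟨h1, h2⟩
      rcases Nat.lt_succ_iff_lt_or_eq.1 h2 with h | h
      · exact Or.inl ⟨h1, h⟩
      · exact Or.inr ⟨h1, h⟩
    · rintro (⟨h1, h2⟩ | ⟨h1, h2⟩)
      · exact ⟨h1, by omega⟩
      · exact ⟨h1, by omega⟩
  · rw [disjoint_left]
    intro v h1 h2
    rw [mem_inter, mem_low] at h1
    rw [mem_inter, mem_lev] at h2
    omega

theorem lev_one51 {C : Finset V} {s : V} (hs : s ∈ nb G C) : 1 ≤ (C ∩ lev G s 1).card := by
  obtain ⟨h1, x, hx, hxs⟩ := mem_nb.1 hs
  rw [Nat.one_le_iff_ne_zero, card_ne_zero]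
  exact ⟨x, mem_inter.2 ⟨hx, mem_lev.2 (SimpleGraph.dist_eq_one_iff_adj.2 hxs.symm)⟩⟩

/-- Data: a set `C` with the cut `{s, t, x}`. -/
structure Ct51 (G : SimpleGraph V) (C : Finset V) (s t x : V) : Prop where
  eq : nb G C = {s, t, x}
  st : s ≠ t
  sx : s ≠ x
  tx : t ≠ x

theorem Ct51.swap {C : Finset V} {s t x : V} (h : Ct51 G C s t x) : Ct51 G C t s x :=
  ⟨by rw [h.eq]; ext v; simp only [mem_insert, mem_singleton]; tauto, h.st.symm, h.tx, h.sx⟩

theorem Ct51.ms {C : Finset V} {s t x : V} (h : Ct51 G C s t x) : s ∈ nb G C := by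
  rw [h.eq]; simp

theorem Ct51.mt {C : Finset V} {s t x : V} (h : Ct51 G C s t x) : t ∈ nb G C := by
  rw [h.eq]; simp

theorem Ct51.mx {C : Finset V} {s t x : V} (h : Ct51 G C s t x) : x ∈ nb G C := by
  rw [h.eq]; simp

theorem Ct51.nt {C : Finset V} {s t x : V} (h : Ct51 G C s t x) : t ∉ C := (mem_nb.1 h.mt).1

/-- Two vertices of `C` on the level `i` of `s`. -/
theorem two51 (h3 : C3 G) (hcn : G.Connected) {C : Finset V} {s t x : V} (h : Ct51 G C s t x)
    {i : ℕ} (h2 : 2 ≤ i) (ht : i < G.dist s t) (hx : i < G.dist s x) :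
    2 ≤ (C ∩ lev G s i).card := by
  have h4 := side_ge51 h3 hcn h.ms h2 h.nt ht
  have h5 : ((nb G C).filter (fun p => G.dist s p ≤ i)).card ≤ 1 := by
    rw [card_le_one]
    have h6 : ∀ p ∈ (nb G C).filter (fun p => G.dist s p ≤ i), p = s := by
      intro p hp
      rw [mem_filter, h.eq, mem_insert, mem_insert, mem_singleton] at hp
      rcases hp with ⟨hp | hp | hp, hp2⟩
      · exact hp
      · rw [hp] at hp2; omega
      · rw [hp] at hp2; omega
    intro a ha b hb
    rw [h6 a ha, h6 b hb]
  omega

/-- One vertex of `C` on the level of the third member of the cut. -/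
theorem one51 (h3 : C3 G) (hcn : G.Connected) {C : Finset V} {s t x : V} (h : Ct51 G C s t x)
    {i : ℕ} (h1 : 1 ≤ i) (ht : i < G.dist s t) : 1 ≤ (C ∩ lev G s i).card := by
  rcases Nat.lt_or_ge i 2 with hi | h2
  · have : i = 1 := by omega
    subst this
    exact lev_one51 h.ms
  · have h4 := side_ge51 h3 hcn h.ms h2 h.nt ht
    have h5 : ((nb G C).filter (fun p => G.dist s p ≤ i)).card ≤ 2 := by
      have h6 : (nb G C).filter (fun p => G.dist s p ≤ i) ⊆ {s, x} := by
        intro p hp
        rw [mem_filter, h.eq, mem_insert, mem_insert, mem_singleton] at hp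
        rw [mem_insert, mem_singleton]
        rcases hp with ⟨hp | hp | hp, hp2⟩
        · exact Or.inl hp
        · rw [hp] at hp2; omega
        · exact Or.inr hp
      exact (card_le_card h6).trans card_le_two
    omega

/-- The ball inside `C`. -/
theorem ballC51 (h3 : C3 G) (hcn : G.Connected) {C : Finset V} {s t x : V} (h : Ct51 G C s t x)
    (k : ℕ) (ht : k + 1 < G.dist s t) (hx : k + 2 ≤ G.dist s x) :
    2 * k + 1 ≤ (C ∩ low G s (k + 2)).card := by
  induction k with
  | zero =>
    have h4 := low_succ51 (G := G) s 1 C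
    have h5 := lev_one51 h.ms
    show 2 * 0 + 1 ≤ (C ∩ low G s (1 + 1)).card
    omega
  | succ k ih =>
    have h4 := ih (by omega) (by omega)
    have h5 := low_succ51 (G := G) s (k + 2) C
    have h6 := two51 h3 hcn h (i := k + 2) (by omega) (by omega) (by omega)
    have e : k + 1 + 2 = k + 2 + 1 := by omega
    rw [e, h5]
    omega

/-- The ball in the graph, both sides counted. -/
theorem ball51 (H : Hyp G r) {A B : Finset V} {s t x : V} (hA : Ct51 G A s t x)
    (hB : Ct51 G B s t x) (hAB : Disjoint A B) (hst : r ≤ G.dist s t) (k : ℕ)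
    (hk : k + 1 ≤ r) (hx : k + 1 ≤ G.dist s x) : 4 * k ≤ (univ ∩ low G s (k + 1)).card := by
  induction k with
  | zero => omega
  | succ k ih =>
    have h4 := ih (by omega) (by omega)
    have h5 := low_succ51 (G := G) s (k + 1) univ
    rcases Nat.eq_zero_or_pos k with h0 | h0
    · subst h0
      have h6 : 3 ≤ (lev G s 1).card := lev_card H s (le_refl 1) (by have := H.r3; omega)
      have h7 : 1 ≤ (univ ∩ low G s 1).card := by
        rw [Nat.one_le_iff_ne_zero, card_ne_zero]
        refine ⟨s, mem_inter.2 ⟨mem_univ _, mem_low.2 ?_⟩⟩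
        rw [SimpleGraph.dist_self]; omega
      rw [univ_inter (lev G s (0 + 1))] at h5
      have e : (lev G s (0 + 1)).card = (lev G s 1).card := rfl
      have e2 : (univ ∩ low G s (0 + 1)).card = (univ ∩ low G s 1).card := rfl
      omega
    · have h6 := two51 H.c3 H.conn hA (i := k + 1) (by omega) (by omega) (by omega)
      have h7 := two51 H.c3 H.conn hB (i := k + 1) (by omega) (by omega) (by omega)
      have h8 : (A ∩ lev G s (k + 1)).card + (B ∩ lev G s (k + 1)).card ≤
          (univ ∩ lev G s (k + 1)).card := by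
        rw [← card_union_of_disjoint]
        · refine card_le_card ?_
          intro v hv
          rw [mem_union, mem_inter, mem_inter] at hv
          rw [mem_inter]
          rcases hv with hv | hv
          · exact ⟨mem_univ _, hv.2⟩
          · exact ⟨mem_univ _, hv.2⟩
        · rw [disjoint_left] at hAB ⊢
          intro v h9 h10
          exact hAB (mem_inter.1 h9).1 (mem_inter.1 h10).1
      omega

/-- The last case: the vertex far from `x` is in `A`. -/
theorem last51 (H : Hyp G r)
    (side : ∀ {A : Finset V} {s u w y : V}, nb G A = {s, u, w} → s ≠ u → s ≠ w → u ≠ w →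
      y ∈ A → r ≤ G.dist s y → G.dist s u ≤ G.dist s w → G.dist s w ≤ r - 1 →
      3 * r ≤ A.card + 4 + G.dist s w)
    {A B : Finset V} {s t x y : V} (hA : Ct51 G A s t x)
    (hB : Ct51 G B s t x) (hn : A.card + B.card + 3 = Fintype.card V) (hst : r ≤ G.dist s t)
    (he : G.dist s x + G.dist t x = r) (hle : G.dist s x ≤ G.dist t x)
    (hy : y ∈ A) (hfar : r ≤ G.dist x y) : False := by
  have hs3 := H.r3
  have hsm := H.small
  have hsx : 1 ≤ G.dist s x := Nat.one_le_iff_ne_zero.2 (fun h => hA.sx
    ((H.conn.dist_eq_zero_iff).1 h))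
  have h1 := side (A := A) (s := x) (u := s) (w := t) (y := y)
    (by rw [hA.eq]; ext v; simp only [mem_insert, mem_singleton]; tauto) hA.sx.symm hA.tx.symm
    hA.st hy hfar (by rw [G.dist_comm, G.dist_comm (u := x)]; exact hle)
    (by rw [G.dist_comm]; omega)
  rw [G.dist_comm] at h1
  -- disjoint parts of B
  have hd1 : Disjoint (B ∩ low G s (G.dist s x)) (B ∩ lev G s (G.dist s x)) := by
    rw [disjoint_left]
    intro v h2 h3
    rw [mem_inter, mem_low] at h2
    rw [mem_inter, mem_lev] at h3
    omega
  have hd2 : Disjoint ((B ∩ low G s (G.dist s x)) ∪ (B ∩ lev G s (G.dist s x)))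
      (B ∩ low G t (G.dist t x)) := by
    rw [disjoint_left]
    intro v h2 h3
    rw [mem_inter, mem_low] at h3
    have h4 := H.conn.dist_triangle (u := s) (v := v) (w := t)
    rw [G.dist_comm (u := v)] at h4
    rw [mem_union, mem_inter, mem_inter, mem_low, mem_lev] at h2
    rcases h2 with h2 | h2 <;> omega
  have hcard : (B ∩ low G s (G.dist s x)).card + (B ∩ lev G s (G.dist s x)).card +
      (B ∩ low G t (G.dist t x)).card ≤ B.card := by
    rw [← card_union_of_disjoint hd1, ← card_union_of_disjoint hd2]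
    refine card_le_card ?_
    intro v hv
    simp only [mem_union, mem_inter] at hv
    tauto
  have h5 := one51 H.c3 H.conn hB (i := G.dist s x) hsx (by omega)
  have hts : r ≤ G.dist t s := by rw [G.dist_comm]; exact hst
  obtain ⟨b, hb⟩ : ∃ b, G.dist t x = b + 2 := ⟨G.dist t x - 2, by omega⟩
  have h6 := ballC51 H.c3 H.conn hB.swap b (by omega) (by omega)
  rw [← hb] at h6
  rcases Nat.lt_or_ge (G.dist s x) 2 with h7 | h7
  · omega
  · obtain ⟨a, ha⟩ : ∃ a, G.dist s x = a + 2 := ⟨G.dist s x - 2, by omega⟩
    have h8 := ballC51 H.c3 H.conn hB a (by omega) (by omega)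
    rw [← ha] at h8
    omega

/-- Section 2, over section 1. -/
theorem cut_close51 (H : Hyp G r)
    (side : ∀ {A : Finset V} {s u w y : V}, nb G A = {s, u, w} → s ≠ u → s ≠ w → u ≠ w →
      y ∈ A → r ≤ G.dist s y → G.dist s u ≤ G.dist s w → G.dist s w ≤ r - 1 →
      3 * r ≤ A.card + 4 + G.dist s w)
    {A : Finset V} (hne : A.Nonempty) (hc : (nb G A).card = 3)
    (hB : A ∪ nb G A ≠ univ) {s t : V} (hs : s ∈ nb G A) (ht : t ∈ nb G A) :
    G.dist s t < r := by
  by_contra hcon
  have hst : r ≤ G.dist s t := by omega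
  have hr3 := H.r3
  have hsm := H.small
  have hne' : s ≠ t := by
    intro h; subst h; rw [SimpleGraph.dist_self] at hst; omega
  -- the third member
  have h1 : (((nb G A).erase s).erase t).card = 1 := by
    rw [card_erase_of_mem (mem_erase.2 ⟨hne'.symm, ht⟩), card_erase_of_mem hs, hc]
  obtain ⟨x, hx⟩ := card_eq_one.1 h1
  have hx' : x ∈ ((nb G A).erase s).erase t := by rw [hx]; simp
  rw [mem_erase, mem_erase] at hx'
  have hA : Ct51 G A s t x := by
    refine ⟨?_, hne', hx'.2.1.symm, hx'.1.symm⟩
    rw [← insert_erase hs, ← insert_erase (mem_erase.2 ⟨hne'.symm, ht⟩ : t ∈ (nb G A).erase s), hx]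
  set B : Finset V := (A ∪ nb G A)ᶜ with hBdef
  obtain ⟨a, ha⟩ := hne
  have hBne : B.Nonempty := by
    rw [nonempty_iff_ne_empty]
    intro h
    exact hB (by rw [hBdef, compl_eq_empty_iff] at h; exact h)
  have hnbB : nb G B = nb G A := by
    refine nb_eq_of_three H.c3 (y := a) hBne (nbc_sub51 A) ?_ ?_ hc
    · rw [hBdef, mem_compl, mem_union]; tauto
    · exact fun h => (mem_nb.1 h).1 ha
  have hBc : Ct51 G B s t x := ⟨by rw [hnbB, hA.eq], hA.st, hA.sx, hA.tx⟩
  have hAB : Disjoint A B := by
    rw [disjoint_left]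
    intro v h2 h3
    rw [hBdef, mem_compl, mem_union] at h3
    exact h3 (Or.inl h2)
  have hcard : A.card + B.card + 3 = Fintype.card V := by
    have h2 : B.card = Fintype.card V - (A ∪ nb G A).card := by
      rw [hBdef, card_compl]
    have h3 : (A ∪ nb G A).card = A.card + 3 := by
      rw [card_union_of_disjoint, hc]
      rw [disjoint_left]
      intro v h4 h5
      exact (mem_nb.1 h5).1 h4
    have h4 := card_le_univ (A ∪ nb G A)
    omega
  -- balls
  have hball : ∀ {s t : V}, Ct51 G A s t x → Ct51 G B s t x → r ≤ G.dist s t →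
      G.dist s x < r := by
    intro s t hA hBc hst
    by_contra h
    have h2 := ball51 H hA hBc hAB hst (r - 1) (by omega) (by omega)
    have h3 : r - 1 + 1 = r := by omega
    rw [h3] at h2
    have h4 : (univ ∩ low G s r).card < (univ : Finset V).card := by
      refine card_lt_card ?_
      rw [ssubset_univ_iff]
      intro h5
      have h6 : t ∈ univ ∩ low G s r := by rw [h5]; exact mem_univ _
      rw [mem_inter, mem_low] at h6
      omega
    rw [card_univ] at h4
    omega
  have hts : r ≤ G.dist t s := by rw [G.dist_comm]; exact hst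
  have h2 := hball hA hBc hst
  have h3 := hball hA.swap hBc.swap hts
  have h4 := H.conn.dist_triangle (u := s) (v := x) (w := t)
  rw [G.dist_comm (u := x)] at h4
  rcases Nat.lt_or_ge r (G.dist s x + G.dist t x) with h5 | h5
  · -- two balls
    obtain ⟨e, he⟩ : ∃ e, G.dist s x = e + 1 := ⟨G.dist s x - 1, by omega⟩
    have h6 := ball51 H hA hBc hAB hst e (by omega) (by omega)
    have h7 := ball51 H hA.swap hBc.swap hAB hts (r - e - 1) (by omega) (by omega)
    have h8 : (univ ∩ low G s (e + 1)).card + (univ ∩ low G t (r - e - 1 + 1)).card ≤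
        Fintype.card V := by
      rw [← card_union_of_disjoint]
      · exact card_le_univ _
      · rw [disjoint_left]
        intro v h9 h10
        rw [mem_inter, mem_low] at h9 h10
        have h11 := H.conn.dist_triangle (u := s) (v := v) (w := t)
        rw [G.dist_comm (u := v)] at h11
        omega
    omega
  · have he : G.dist s x + G.dist t x = r := by omega
    obtain ⟨y, hy⟩ := H.ecc x
    have hyn : y ∉ nb G A := by
      rw [hA.eq, mem_insert, mem_insert, mem_singleton]
      rintro (h | h | h)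
      · rw [h, G.dist_comm] at hy; omega
      · rw [h, G.dist_comm] at hy; omega
      · rw [h, SimpleGraph.dist_self] at hy; omega
    have hAB2 : y ∈ A ∨ y ∈ B := by
      by_cases h : y ∈ A
      · exact Or.inl h
      · right
        rw [hBdef, mem_compl, mem_union]
        tauto
    rcases le_total (G.dist s x) (G.dist t x) with hle | hle
    · rcases hAB2 with h | h
      · exact last51 H side hA hBc hcard hst he hle h hy
      · exact last51 H side hBc hA (by omega) hst he hle h hy
    · rcases hAB2 with h | h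
      · exact last51 H side hA.swap hBc.swap hcard hts (by omega) hle h hy
      · exact last51 H side hBc.swap hA.swap (by omega) hts (by omega) hle h hy

end

end MP_761168_co
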