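import Pool.Agent.Lib.MP_761168_co.X.JM1_56

/-!
Full Jucovic-Moon, definitions for the last step (helper58, page JMfull58.md).
-/

namespace MP_761168_co

open Finset

noncomputable section

open scoped Classical

variable {V : Type*} [Fintype V]

/-- `D` is light and contains every light set that meets it. -/
def MaxL (G : SimpleGraph V) (r : ℕ) (D : Finset V) : Prop :=
  Light G r D ∧ ∀ A, Light G r A → (A ∩ D).Nonempty → A ⊆ D

/-- The cut of `D` is `{s, u, w}`, three different vertices. -/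
structure Cut (G : SimpleGraph V) (D : Finset V) (s u w : V) : Prop where
  eq : nb G D = {s, u, w}
  su : s ≠ u
  sw : s ≠ w
  uw : u ≠ w

/-- `Z_k`: level `k` of `s` outside `D`, and those of `u, w` which are further away. -/
def ZZ (G : SimpleGraph V) (D : Finset V) (s u w : V) (k : ℕ) : Finset V :=
  (lev G s k \ D) ∪ ({u, w} : Finset V).filter (fun p => k < G.dist s p)

/-- `W_k`: vertices outside `D` and its cut, at distance more than `k` from `s`. -/
def WW (G : SimpleGraph V) (D : Finset V) (s : V) (k : ℕ) : Finset V :=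
  univ.filter (fun v => v ∉ D ∧ v ∉ nb G D ∧ k < G.dist s v)

/-- level `k` of `s` outside `D` and its cut. -/
def BL (G : SimpleGraph V) (D : Finset V) (s : V) (k : ℕ) : Finset V :=
  univ.filter (fun v => v ∉ D ∧ v ∉ nb G D ∧ G.dist s v = k)

/-- quasi-thin levels -/
def QQ (G : SimpleGraph V) (r : ℕ) (D : Finset V) (s u w : V) : Finset ℕ :=
  (Finset.Icc 1 (r - 1)).filter (fun k => (ZZ G D s u w k).card = 3)

/-- the excess -/
def EX (G : SimpleGraph V) (r : ℕ) (D : Finset V) (s u w : V) : ℕ :=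
  (∑ k ∈ Finset.Icc 1 (r - 1), ((ZZ G D s u w k).card - 4)) + ((WW G D s (r - 1)).card - 1)

/-- The structure of a set of size `a + b + c - 7` with a 3-cut (page, section 2). -/
structure Tri (G : SimpleGraph V) (D : Finset V) (s u w : V) (al be ga : ℕ) : Prop where
  ha : G.dist s u = al + be
  hb : G.dist s w = al + ga
  hc : G.dist u w = be + ga
  al2 : 2 ≤ al
  be2 : 2 ≤ be
  ga2 : 2 ≤ ga
  one_s : (lev G s 1 ∩ D).card = 1
  one_u : (lev G u 1 ∩ D).card = 1
  one_w : (lev G w 1 ∩ D).card = 1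
  two_s : ∀ k, 2 ≤ k → k ≤ al → (lev G s k ∩ D).card = 2
  two_u : ∀ k, 2 ≤ k → k ≤ be → (lev G u k ∩ D).card = 2
  two_w : ∀ k, 2 ≤ k → k ≤ ga → (lev G w k ∩ D).card = 2
  cen_u : lev G s al ∩ D = lev G u be ∩ D
  cen_w : lev G s al ∩ D = lev G w ga ∩ D
  part : ∀ v ∈ D, G.dist s v ≤ al ∨ G.dist u v + 1 ≤ be ∨ G.dist w v + 1 ≤ ga

/-- The symmetric part of `Tri`. -/
structure TriS (G : SimpleGraph V) (D : Finset V) : Prop where
  one : ∀ p ∈ nb G D, (lev G p 1 ∩ D).card = 1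
  two : ∀ p ∈ nb G D, (lev G p 2 ∩ D).card = 2
  four : ∀ p ∈ nb G D, ∀ p' ∈ nb G D, p ≠ p' → 4 ≤ G.dist p p'
  eqd : ∀ p ∈ nb G D, ∀ p' ∈ nb G D, p ≠ p' →
    lev G p 2 ∩ D = lev G p' 2 ∩ D ∨ Disjoint (lev G p 2 ∩ D) (lev G p' 2 ∩ D)

end

end MP_761168_co
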