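import Pool.Agent.Lib.MP_761168_co.F.Defs58

/-!
Full Jucovic-Moon, row P2a: size of a set with a 3-cut (helper93, page JMfull58.md, section 2).
-/

namespace MP_761168_co

open Finset

noncomputable section

open scoped Classical

variable {V : Type*} [Fintype V] {G : SimpleGraph V}

theorem Cut.perm_u {D : Finset V} {s u w : V} (h : Cut G D s u w) : Cut G D u s w := by
  refine ⟨?_, h.su.symm, h.uw, h.sw⟩
  rw [h.eq]
  ext x
  simp only [mem_insert, mem_singleton]
  tauto

theorem Cut.perm_w {D : Finset V} {s u w : V} (h : Cut G D s u w) : Cut G D w s u := by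
  refine ⟨?_, h.sw.symm, h.uw.symm, h.su⟩
  rw [h.eq]
  ext x
  simp only [mem_insert, mem_singleton]
  tauto

theorem Cut.mem_s {D : Finset V} {s u w : V} (h : Cut G D s u w) : s ∈ nb G D := by
  rw [h.eq]; simp

theorem Cut.mem_u {D : Finset V} {s u w : V} (h : Cut G D s u w) : u ∈ nb G D := by
  rw [h.eq]; simp

theorem Cut.mem_w {D : Finset V} {s u w : V} (h : Cut G D s u w) : w ∈ nb G D := by
  rw [h.eq]; simp

/-- The part of `D` at distance at most `k` from `p`. -/
def ball93 (G : SimpleGraph V) (D : Finset V) (p : V) (k : ℕ) : Finset V :=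
  D.filter (fun v => G.dist p v ≤ k)

omit [Fintype V] in
theorem mem_ball93 {D : Finset V} {p v : V} {k : ℕ} :
    v ∈ ball93 G D p k ↔ v ∈ D ∧ G.dist p v ≤ k := by
  simp [ball93]

omit [Fintype V] in
theorem ball93_zero (hc : G.Connected) {D : Finset V} {p : V} (hp : p ∉ D) :
    (ball93 G D p 0).card = 0 := by
  rw [card_eq_zero, eq_empty_iff_forall_notMem]
  intro v hv
  rw [mem_ball93] at hv
  have h1 : G.dist p v = 0 := by omega
  rw [hc.dist_eq_zero_iff] at h1
  rw [h1] at hp
  exact hp hv.1

theorem ball93_succ {D : Finset V} {p : V} {k : ℕ} :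
    (ball93 G D p (k + 1)).card = (ball93 G D p k).card + (lev G p (k + 1) ∩ D).card := by
  rw [← card_union_of_disjoint]
  · congr 1
    ext v
    rw [mem_union, mem_ball93, mem_ball93, mem_inter, mem_lev]
    constructor
    · rintro ⟨h1, h2⟩
      by_cases h : G.dist p v ≤ k
      · exact Or.inl ⟨h1, h⟩
      · exact Or.inr ⟨by omega, h1⟩
    · rintro (⟨h1, h2⟩ | ⟨h1, h2⟩)
      · exact ⟨h1, by omega⟩
      · exact ⟨h2, by omega⟩
  · rw [disjoint_left]
    intro v hv hv'
    rw [mem_ball93] at hv
    rw [mem_inter, mem_lev] at hv'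
    omega

theorem lev_one_ge {D : Finset V} {p p' p'' : V} (hC : Cut G D p p' p'') :
    1 ≤ (lev G p 1 ∩ D).card := by
  have h1 := hC.mem_s
  rw [mem_nb] at h1
  obtain ⟨-, x, hx, hadj⟩ := h1
  refine card_pos.2 ⟨x, ?_⟩
  rw [mem_inter, mem_lev]
  exact ⟨SimpleGraph.dist_eq_one_iff_adj.2 hadj.symm, hx⟩

theorem lev_two_ge (hc : G.Connected) (h3 : C3 G) {D : Finset V} {p p' p'' : V}
    (hC : Cut G D p p' p'') {k : ℕ} (h2 : 2 ≤ k) (hk : k < G.dist p p') (hk' : k < G.dist p p'') :
    2 ≤ (lev G p k ∩ D).card := by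
  have hp := hC.mem_s
  have hp' := hC.mem_u
  have hp'D : p' ∉ D := (mem_nb.1 hp').1
  have hkey : 3 ≤ ((lev G p k ∩ D) ∪ {p}).card := by
    refine three_le h3 (X := D.filter (fun v => G.dist p v < k)) (y := p') ?_ ?_ ?_ ?_
    · rw [mem_nb] at hp
      obtain ⟨-, x, hx, hadj⟩ := hp
      refine ⟨x, mem_filter.2 ⟨hx, ?_⟩⟩
      rw [SimpleGraph.dist_eq_one_iff_adj.2 hadj.symm]
      omega
    · intro v hv
      rw [mem_nb] at hv
      obtain ⟨hv1, x, hx, hxv⟩ := hv
      rw [mem_filter] at hx hv1
      have hle := dist_adj_le hc p hxv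
      rw [mem_union, mem_inter, mem_lev, mem_singleton]
      rcases mem_or_nb hx.1 hxv with hvD | hvn
      · left
        refine ⟨?_, hvD⟩
        have : ¬ G.dist p v < k := fun h => hv1 ⟨hvD, h⟩
        omega
      · right
        rw [hC.eq] at hvn
        simp only [mem_insert, mem_singleton] at hvn
        rcases hvn with h | h | h
        · exact h
        · rw [h] at hle; omega
        · rw [h] at hle; omega
    · intro h
      exact hp'D (mem_filter.1 h).1
    · rw [mem_union, mem_inter, mem_singleton]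
      rintro (h | h)
      · exact hp'D h.2
      · exact hC.su h.symm
  have h4 := card_union_le (lev G p k ∩ D) {p}
  rw [card_singleton] at h4
  omega

theorem ball93_ge (hc : G.Connected) (h3 : C3 G) {D : Finset V} {p p' p'' : V}
    (hC : Cut G D p p' p'') {k : ℕ} (hk : k < G.dist p p') (hk' : k < G.dist p p'') :
    2 * k ≤ (ball93 G D p k).card + 1 := by
  induction k with
  | zero => omega
  | succ n ih =>
    have h1 := ih (by omega) (by omega)
    rw [ball93_succ]
    rcases Nat.eq_zero_or_pos n with h0 | h0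
    · subst h0
      have := lev_one_ge hC
      simp only [zero_add] at *
      omega
    · have := lev_two_ge hc h3 hC (k := n + 1) (by omega) hk hk'
      omega

theorem ball93_tight (hc : G.Connected) (h3 : C3 G) {D : Finset V} {p p' p'' : V}
    (hC : Cut G D p p' p'') {k : ℕ} (hk0 : 1 ≤ k) (hk : k < G.dist p p') (hk' : k < G.dist p p'')
    (h : (ball93 G D p k).card + 1 = 2 * k) :
    (lev G p 1 ∩ D).card = 1 ∧ ∀ j, 2 ≤ j → j ≤ k → (lev G p j ∩ D).card = 2 := by
  induction k with
  | zero => omega
  | succ n ih =>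
    have h1 := ball93_ge hc h3 hC (k := n) (by omega) (by omega)
    rw [ball93_succ] at h
    rcases Nat.eq_zero_or_pos n with h0 | h0
    · subst h0
      have h2 := ball93_zero hc (D := D) (p := p) (mem_nb.1 hC.mem_s).1
      simp only [zero_add] at *
      exact ⟨by omega, fun j hj hj' => by omega⟩
    · have h2 := lev_two_ge hc h3 hC (k := n + 1) (by omega) hk hk'
      obtain ⟨i1, i2⟩ := ih (by omega) (by omega) (by omega) (by omega)
      refine ⟨i1, fun j hj hj' => ?_⟩
      by_cases hjn : j ≤ n
      · exact i2 j hj hjn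
      · have : j = n + 1 := by omega
        subst this
        omega

omit [Fintype V] in
theorem balls93_disj (hc : G.Connected) {D : Finset V} {p p' : V} {k k' : ℕ}
    (h : k + k' + 1 ≤ G.dist p p') : Disjoint (ball93 G D p k) (ball93 G D p' k') := by
  rw [disjoint_left]
  intro v hv hv'
  rw [mem_ball93] at hv hv'
  have h1 := hc.dist_triangle (u := p) (v := v) (w := p')
  rw [G.dist_comm (u := v)] at h1
  omega

omit [Fintype V] in
theorem sum_balls93 (hc : G.Connected) {D : Finset V} {s u w : V} {α β γ : ℕ}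
    (h1 : α + β + 1 ≤ G.dist s u) (h2 : α + γ + 1 ≤ G.dist s w) (h3 : β + γ + 1 ≤ G.dist u w) :
    (ball93 G D s α).card + (ball93 G D u β).card + (ball93 G D w γ).card ≤ D.card ∧
    (D.card ≤ (ball93 G D s α).card + (ball93 G D u β).card + (ball93 G D w γ).card →
      ∀ v ∈ D, G.dist s v ≤ α ∨ G.dist u v ≤ β ∨ G.dist w v ≤ γ) := by
  have d1 := balls93_disj hc (D := D) h1
  have d2 := balls93_disj hc (D := D) h2
  have d3 := balls93_disj hc (D := D) h3
  have d4 : Disjoint (ball93 G D s α ∪ ball93 G D u β) (ball93 G D w γ) := by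
    rw [disjoint_union_left]
    exact ⟨d2, d3⟩
  have hcard : ((ball93 G D s α ∪ ball93 G D u β) ∪ ball93 G D w γ).card =
      (ball93 G D s α).card + (ball93 G D u β).card + (ball93 G D w γ).card := by
    rw [card_union_of_disjoint d4, card_union_of_disjoint d1]
  have hsub : (ball93 G D s α ∪ ball93 G D u β) ∪ ball93 G D w γ ⊆ D := by
    intro v hv
    rw [mem_union, mem_union, mem_ball93, mem_ball93, mem_ball93] at hv
    rcases hv with (h | h) | h <;> exact h.1
  refine ⟨?_, fun hle v hv => ?_⟩
  · rw [← hcard]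
    exact card_le_card hsub
  · rw [← hcard] at hle
    have heq := eq_of_subset_of_card_le hsub hle
    rw [← heq, mem_union, mem_union, mem_ball93, mem_ball93, mem_ball93] at hv
    rcases hv with (h | h) | h
    · exact Or.inl h.2
    · exact Or.inr (Or.inl h.2)
    · exact Or.inr (Or.inr h.2)

theorem size_ge (hc : G.Connected) (h3 : C3 G) {D : Finset V} {s u w : V}
    (_hne : D.Nonempty) (hC : Cut G D s u w) (_hB : D ∪ nb G D ≠ univ) :
    G.dist s u + G.dist s w + G.dist u w ≤ D.card + 7 ∧
      ((G.dist s u + G.dist s w + G.dist u w) % 2 = 1 →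
        G.dist s u + G.dist s w + G.dist u w ≤ D.card + 6) := by
  have t1 := hc.dist_triangle (u := s) (v := u) (w := w)
  have t2 := hc.dist_triangle (u := s) (v := w) (w := u)
  have t3 := hc.dist_triangle (u := u) (v := s) (w := w)
  rw [G.dist_comm (u := w) (v := u)] at t2
  rw [G.dist_comm (u := u) (v := s)] at t3
  have p1 := hc.pos_dist_of_ne hC.su
  have p2 := hc.pos_dist_of_ne hC.sw
  have p3 := hc.pos_dist_of_ne hC.uw
  have bs := fun k h h' => ball93_ge hc h3 hC (k := k) h h'
  have bu := fun k h h' => ball93_ge hc h3 hC.perm_u (k := k) h h'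
  have bw := fun k h h' => ball93_ge hc h3 hC.perm_w (k := k) h h'
  rw [G.dist_comm (u := u) (v := s)] at bu
  rw [G.dist_comm (u := w) (v := s), G.dist_comm (u := w) (v := u)] at bw
  have hsum := fun α β γ h1 h2 h3 => (sum_balls93 hc (D := D) (s := s) (u := u) (w := w)
    (α := α) (β := β) (γ := γ) h1 h2 h3).1
  generalize G.dist s u = a at *
  generalize G.dist s w = b at *
  generalize G.dist u w = c at *
  rcases Nat.even_or_odd' (a + b + c) with ⟨m, hm | hm⟩
  · refine ⟨?_, fun h => by omega⟩
    obtain ⟨al, hal⟩ : ∃ al, a + b = c + 2 * al := ⟨(a + b - c) / 2, by omega⟩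
    obtain ⟨be, hbe⟩ : ∃ be, a + c = b + 2 * be := ⟨(a + c - b) / 2, by omega⟩
    obtain ⟨ga, hga⟩ : ∃ ga, b + c = a + 2 * ga := ⟨(b + c - a) / 2, by omega⟩
    by_cases h1 : al = 0
    · have e1 := hsum 0 (be - 1) (ga - 1) (by omega) (by omega) (by omega)
      have e2 := bu (be - 1) (by omega) (by omega)
      have e3 := bw (ga - 1) (by omega) (by omega)
      omega
    by_cases h2 : be = 0
    · have e1 := hsum (al - 1) 0 (ga - 1) (by omega) (by omega) (by omega)
      have e2 := bs (al - 1) (by omega) (by omega)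
      have e3 := bw (ga - 1) (by omega) (by omega)
      omega
    by_cases h4 : ga = 0
    · have e1 := hsum (al - 1) (be - 1) 0 (by omega) (by omega) (by omega)
      have e2 := bs (al - 1) (by omega) (by omega)
      have e3 := bu (be - 1) (by omega) (by omega)
      omega
    have e1 := hsum al (be - 1) (ga - 1) (by omega) (by omega) (by omega)
    have e2 := bs al (by omega) (by omega)
    have e3 := bu (be - 1) (by omega) (by omega)
    have e4 := bw (ga - 1) (by omega) (by omega)
    omega
  · obtain ⟨al, hal⟩ : ∃ al, a + b = c + 2 * al + 1 := ⟨(a + b - c) / 2, by omega⟩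
    obtain ⟨be, hbe⟩ : ∃ be, a + c = b + 2 * be + 1 := ⟨(a + c - b) / 2, by omega⟩
    obtain ⟨ga, hga⟩ : ∃ ga, b + c = a + 2 * ga + 1 := ⟨(b + c - a) / 2, by omega⟩
    have e1 := hsum al be ga (by omega) (by omega) (by omega)
    have e2 := bs al (by omega) (by omega)
    have e3 := bu be (by omega) (by omega)
    have e4 := bw ga (by omega) (by omega)
    exact ⟨by omega, fun _ => by omega⟩

theorem tri_of_card (hc : G.Connected) (h3 : C3 G) {D : Finset V} {s u w : V}
    (_hne : D.Nonempty) (hC : Cut G D s u w) (_hB : D ∪ nb G D ≠ univ)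
    (h : G.dist s u + G.dist s w + G.dist u w = D.card + 7) :
    ∃ al be ga, Tri G D s u w al be ga := by
  have t1 := hc.dist_triangle (u := s) (v := u) (w := w)
  have t2 := hc.dist_triangle (u := s) (v := w) (w := u)
  have t3 := hc.dist_triangle (u := u) (v := s) (w := w)
  rw [G.dist_comm (u := w) (v := u)] at t2
  rw [G.dist_comm (u := u) (v := s)] at t3
  have p1 := hc.pos_dist_of_ne hC.su
  have p2 := hc.pos_dist_of_ne hC.sw
  have p3 := hc.pos_dist_of_ne hC.uw
  have bs := fun k h h' => ball93_ge hc h3 hC (k := k) h h'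
  have bu := fun k h h' => ball93_ge hc h3 hC.perm_u (k := k) h h'
  have bw := fun k h h' => ball93_ge hc h3 hC.perm_w (k := k) h h'
  have ts := fun k h0 h h' => ball93_tight hc h3 hC (k := k) h0 h h'
  have tu := fun k h0 h h' => ball93_tight hc h3 hC.perm_u (k := k) h0 h h'
  have tw := fun k h0 h h' => ball93_tight hc h3 hC.perm_w (k := k) h0 h h'
  rw [G.dist_comm (u := u) (v := s)] at bu tu
  rw [G.dist_comm (u := w) (v := s), G.dist_comm (u := w) (v := u)] at bw tw
  have hsum := fun α β γ h1 h2 h3 => (sum_balls93 hc (D := D) (s := s) (u := u) (w := w)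
    (α := α) (β := β) (γ := γ) h1 h2 h3).1
  have hcov := fun α β γ h1 h2 h3 => (sum_balls93 hc (D := D) (s := s) (u := u) (w := w)
    (α := α) (β := β) (γ := γ) h1 h2 h3).2
  have hodd := (size_ge hc h3 _hne hC _hB).2
  have v1 : ∀ v, G.dist s u ≤ G.dist s v + G.dist u v := fun v => by
    have h1 := hc.dist_triangle (u := s) (v := v) (w := u)
    rw [G.dist_comm (u := v) (v := u)] at h1
    exact h1
  have v2 : ∀ v, G.dist s w ≤ G.dist s v + G.dist w v := fun v => by
    have h1 := hc.dist_triangle (u := s) (v := v) (w := w)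
    rw [G.dist_comm (u := v) (v := w)] at h1
    exact h1
  have v3 : ∀ v, G.dist u w ≤ G.dist u v + G.dist w v := fun v => by
    have h1 := hc.dist_triangle (u := u) (v := v) (w := w)
    rw [G.dist_comm (u := v) (v := w)] at h1
    exact h1
  have key : ∃ al be ga, G.dist s u = al + be ∧ G.dist s w = al + ga ∧ G.dist u w = be + ga ∧
      2 ≤ al ∧ 2 ≤ be ∧ 2 ≤ ga ∧
      (ball93 G D s al).card + 1 = 2 * al ∧ (ball93 G D u be).card + 1 = 2 * be ∧
      (ball93 G D w ga).card + 1 = 2 * ga ∧
      (∀ v ∈ D, G.dist s v ≤ al ∨ G.dist u v ≤ be - 1 ∨ G.dist w v ≤ ga - 1) ∧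
      (∀ v ∈ D, G.dist s v ≤ al - 1 ∨ G.dist u v ≤ be ∨ G.dist w v ≤ ga - 1) ∧
      (∀ v ∈ D, G.dist s v ≤ al - 1 ∨ G.dist u v ≤ be - 1 ∨ G.dist w v ≤ ga) := by
    clear v1 v2 v3 ts tu tw
    generalize G.dist s u = a at *
    generalize G.dist s w = b at *
    generalize G.dist u w = c at *
    have heven : (a + b + c) % 2 = 0 := by
      by_contra hne
      have := hodd (by omega)
      omega
    obtain ⟨al, hal⟩ : ∃ al, a + b = c + 2 * al := ⟨(a + b - c) / 2, by omega⟩
    obtain ⟨be, hbe⟩ : ∃ be, a + c = b + 2 * be := ⟨(a + c - b) / 2, by omega⟩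
    obtain ⟨ga, hga⟩ : ∃ ga, b + c = a + 2 * ga := ⟨(b + c - a) / 2, by omega⟩
    have h1 : al ≠ 0 := by
      intro h1
      have e1 := hsum 0 (be - 1) (ga - 1) (by omega) (by omega) (by omega)
      have e2 := bu (be - 1) (by omega) (by omega)
      have e3 := bw (ga - 1) (by omega) (by omega)
      omega
    have h2 : be ≠ 0 := by
      intro h2
      have e1 := hsum (al - 1) 0 (ga - 1) (by omega) (by omega) (by omega)
      have e2 := bs (al - 1) (by omega) (by omega)
      have e3 := bw (ga - 1) (by omega) (by omega)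
      omega
    have h4 : ga ≠ 0 := by
      intro h4
      have e1 := hsum (al - 1) (be - 1) 0 (by omega) (by omega) (by omega)
      have e2 := bs (al - 1) (by omega) (by omega)
      have e3 := bu (be - 1) (by omega) (by omega)
      omega
    have x1 := hsum al (be - 1) (ga - 1) (by omega) (by omega) (by omega)
    have x2 := hsum (al - 1) be (ga - 1) (by omega) (by omega) (by omega)
    have x3 := hsum (al - 1) (be - 1) ga (by omega) (by omega) (by omega)
    have y1 := bs al (by omega) (by omega)
    have y1' := bs (al - 1) (by omega) (by omega)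
    have y2 := bu be (by omega) (by omega)
    have y2' := bu (be - 1) (by omega) (by omega)
    have y3 := bw ga (by omega) (by omega)
    have y3' := bw (ga - 1) (by omega) (by omega)
    refine ⟨al, be, ga, by omega, by omega, by omega, by omega, by omega, by omega, by omega,
      by omega, by omega, ?_, ?_, ?_⟩
    · exact hcov al (be - 1) (ga - 1) (by omega) (by omega) (by omega) (by omega)
    · exact hcov (al - 1) be (ga - 1) (by omega) (by omega) (by omega) (by omega)
    · exact hcov (al - 1) (be - 1) ga (by omega) (by omega) (by omega) (by omega)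
  obtain ⟨al, be, ga, ha, hb, hcc, al2, be2, ga2, z1, z2, z3, c1, c2, c3⟩ := key
  have ts' := ts al (by omega) (by omega) (by omega) z1
  have tu' := tu be (by omega) (by omega) (by omega) z2
  have tw' := tw ga (by omega) (by omega) (by omega) z3
  refine ⟨al, be, ga, ha, hb, hcc, al2, be2, ga2, ts'.1, tu'.1, tw'.1, ts'.2, tu'.2, tw'.2,
    ?_, ?_, ?_⟩
  · ext v
    rw [mem_inter, mem_inter, mem_lev, mem_lev]
    have w1 := v1 v
    have w2 := v2 v
    have w3 := v3 v
    constructor
    · rintro ⟨h1, h2⟩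
      refine ⟨?_, h2⟩
      rcases c2 v h2 with h | h | h <;> omega
    · rintro ⟨h1, h2⟩
      refine ⟨?_, h2⟩
      rcases c1 v h2 with h | h | h <;> omega
  · ext v
    rw [mem_inter, mem_inter, mem_lev, mem_lev]
    have w1 := v1 v
    have w2 := v2 v
    have w3 := v3 v
    constructor
    · rintro ⟨h1, h2⟩
      refine ⟨?_, h2⟩
      rcases c3 v h2 with h | h | h <;> omega
    · rintro ⟨h1, h2⟩
      refine ⟨?_, h2⟩
      rcases c1 v h2 with h | h | h <;> omega
  · intro v hv
    rcases c1 v hv with h | h | h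
    · exact Or.inl h
    · exact Or.inr (Or.inl (by omega))
    · exact Or.inr (Or.inr (by omega))

end

end MP_761168_co
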