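import Pool.Agent.Lib.MP_761168_co.F.Defs58

/-!
Row P1b (helper88): the sizes of the levels outside `D` and the count.
-/

set_option autoImplicit false

namespace MP_761168_co

open Finset

noncomputable section

open scoped Classical

variable {V : Type*} [Fintype V] {G : SimpleGraph V} {r : ℕ}

omit [Fintype V] in
/-- the number of members of `u, w` with a property -/
theorem card_pair_filter88 {u w : V} (h : u ≠ w) (p : V → Prop) [DecidablePred p] :
    (({u, w} : Finset V).filter p).card =
      (if p u then 1 else 0) + (if p w then 1 else 0) := by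
  rw [card_filter, sum_pair h]

theorem mem_nbD88 {D : Finset V} {s u w v : V} (hC : Cut G D s u w) :
    v ∈ nb G D ↔ v = s ∨ v = u ∨ v = w := by
  rw [hC.eq, mem_insert, mem_insert, mem_singleton]

theorem zz_eq88 {D : Finset V} {s u w : V} (hC : Cut G D s u w) {k : ℕ} (h1 : 1 ≤ k) :
    ZZ G D s u w k = BL G D s k ∪ ({u, w} : Finset V).filter (fun p => k ≤ G.dist s p) := by
  ext v
  rw [ZZ, BL, mem_union, mem_union, mem_sdiff, mem_lev, mem_filter, mem_filter, mem_filter,
    mem_insert, mem_singleton]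
  have hs : G.dist s s = 0 := SimpleGraph.dist_self
  constructor
  · rintro (⟨h2, h3⟩ | ⟨h2, h3⟩)
    · by_cases h4 : v ∈ nb G D
      · rw [mem_nbD88 hC] at h4
        rcases h4 with rfl | h4
        · omega
        · exact Or.inr ⟨h4, h2.symm.le⟩
      · exact Or.inl ⟨mem_univ _, h3, h4, h2⟩
    · exact Or.inr ⟨h2, h3.le⟩
  · rintro (⟨-, h2, h3, h4⟩ | ⟨h2, h3⟩)
    · exact Or.inl ⟨h4, h2⟩
    · rcases Nat.lt_or_ge k (G.dist s v) with h4 | h4
      · exact Or.inr ⟨h2, h4⟩
      · have h5 : v ∈ nb G D := (mem_nbD88 hC).2 (Or.inr h2)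
        exact Or.inl ⟨le_antisymm h4 h3, (mem_nb.1 h5).1⟩

/-- The sizes of the levels outside `D` and its cut. -/
theorem bl_card (H : Hyp G r) {D : Finset V} {s u w : V} (hC : Cut G D s u w) {k : ℕ}
    (h1 : 1 ≤ k) :
    (BL G D s k).card + ((if k ≤ G.dist s u then 1 else 0) + (if k ≤ G.dist s w then 1 else 0)) =
      (ZZ G D s u w k).card := by
  have _ := H.r3
  rw [zz_eq88 hC h1, card_union_of_disjoint, card_pair_filter88 hC.uw]
  rw [disjoint_left]
  intro v h2 h3
  rw [BL, mem_filter] at h2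
  rw [mem_filter, mem_insert, mem_singleton] at h3
  exact h2.2.2.1 ((mem_nbD88 hC).2 (Or.inr h3.1))

/-- level `k` outside `D` -/
theorem lev_sdiff88 {D : Finset V} {s u w : V} (hC : Cut G D s u w) {k : ℕ} :
    (lev G s k \ D).card + ((if k < G.dist s u then 1 else 0) + (if k < G.dist s w then 1 else 0)) =
      (ZZ G D s u w k).card := by
  rw [ZZ, card_union_of_disjoint, card_pair_filter88 hC.uw]
  rw [disjoint_left]
  intro v h2 h3
  rw [mem_sdiff, mem_lev] at h2
  rw [mem_filter] at h3
  omega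

theorem sum_ind88 (m d : ℕ) (h1 : 1 ≤ d) (h2 : d ≤ m) :
    ∑ k ∈ Icc 1 m, (if k < d then 1 else 0) = d - 1 := by
  rw [← card_filter]
  have h3 : (Icc 1 m).filter (fun k => k < d) = Icc 1 (d - 1) := by
    ext k
    rw [mem_filter, mem_Icc, mem_Icc]
    omega
  rw [h3, Nat.card_Icc]
  omega

/-- the count, from `3 ≤ |Z_k|` and the distances inside the cut -/
theorem count_out_of88 (H : Hyp G r) {D : Finset V} {s u w : V} (hL : Light G r D)
    (hC : Cut G D s u w) (hz : ∀ k, 1 ≤ k → k ≤ r - 1 → 3 ≤ (ZZ G D s u w k).card)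
    (hu : G.dist s u < r) (hw : G.dist s w < r) :
    Fintype.card V + (QQ G r D s u w).card + G.dist s u + G.dist s w =
      D.card + 4 * r + EX G r D s u w := by
  have hr3 := H.r3
  have hs : G.dist s s = 0 := SimpleGraph.dist_self
  have hsD : s ∉ D := (mem_nb.1 ((mem_nbD88 hC).2 (Or.inl rfl))).1
  have hu1 : 1 ≤ G.dist s u := by
    rcases Nat.eq_zero_or_pos (G.dist s u) with h | h
    · exact absurd ((H.conn.dist_eq_zero_iff).1 h) hC.su
    · exact h
  have hw1 : 1 ≤ G.dist s w := by
    rcases Nat.eq_zero_or_pos (G.dist s w) with h | h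
    · exact absurd ((H.conn.dist_eq_zero_iff).1 h) hC.sw
    · exact h
  -- the far vertex
  obtain ⟨y, hy⟩ := H.ecc s
  have hyW : y ∈ WW G D s (r - 1) := by
    rw [WW, mem_filter]
    refine ⟨mem_univ _, fun h => ?_, fun h => ?_, by omega⟩
    · have := hL.2.2.2 s ((mem_nbD88 hC).2 (Or.inl rfl)) y h
      omega
    · rw [mem_nbD88 hC] at h
      rcases h with rfl | rfl | rfl <;> omega
  have hW1 : 1 ≤ (WW G D s (r - 1)).card := card_pos.2 ⟨y, hyW⟩
  -- the partition of the vertices outside `D`
  have hpart : (Dᶜ).card = 1 + ∑ k ∈ Icc 1 (r - 1), (lev G s k \ D).card +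
      (WW G D s (r - 1)).card := by
    have e1 : Dᶜ = ({s} : Finset V) ∪ ((Dᶜ).filter (fun v => G.dist s v ∈ Icc 1 (r - 1))) ∪
        WW G D s (r - 1) := by
      ext v
      rw [mem_union, mem_union, mem_singleton, mem_filter, mem_compl, mem_Icc, WW, mem_filter]
      constructor
      · intro h
        by_cases h1 : v = s
        · exact Or.inl (Or.inl h1)
        · have h2 : 1 ≤ G.dist s v := by
            rcases Nat.eq_zero_or_pos (G.dist s v) with h3 | h3
            · exact absurd ((H.conn.dist_eq_zero_iff).1 h3).symm h1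
            · exact h3
          by_cases h3 : G.dist s v ≤ r - 1
          · exact Or.inl (Or.inr ⟨h, h2, h3⟩)
          · refine Or.inr ⟨mem_univ _, h, fun h4 => ?_, by omega⟩
            rw [mem_nbD88 hC] at h4
            rcases h4 with rfl | rfl | rfl <;> omega
      · rintro ((rfl | h) | h)
        · exact hsD
        · exact h.1
        · exact h.2.1
    have d1 : Disjoint (({s} : Finset V) ∪ ((Dᶜ).filter (fun v => G.dist s v ∈ Icc 1 (r - 1))))
        (WW G D s (r - 1)) := by
      rw [disjoint_left]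
      intro v h1 h2
      rw [WW, mem_filter] at h2
      rw [mem_union, mem_singleton, mem_filter, mem_Icc] at h1
      rcases h1 with rfl | h1 <;> omega
    have d2 : Disjoint ({s} : Finset V)
        ((Dᶜ).filter (fun v => G.dist s v ∈ Icc 1 (r - 1))) := by
      rw [disjoint_left]
      intro v h1 h2
      rw [mem_singleton] at h1
      subst h1
      rw [mem_filter, mem_Icc] at h2
      omega
    have e2 : ((Dᶜ).filter (fun v => G.dist s v ∈ Icc 1 (r - 1))).card =
        ∑ k ∈ Icc 1 (r - 1), (lev G s k \ D).card := by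
      have hmaps : ∀ v ∈ (Dᶜ).filter (fun v => G.dist s v ∈ Icc 1 (r - 1)),
          G.dist s v ∈ Icc 1 (r - 1) := fun v hv => (mem_filter.1 hv).2
      rw [card_eq_sum_card_fiberwise hmaps]
      refine sum_congr rfl fun k hk => ?_
      congr 1
      ext v
      rw [mem_filter, mem_filter, mem_compl, mem_sdiff, mem_lev]
      constructor
      · rintro ⟨⟨h1, -⟩, h2⟩
        exact ⟨h2, h1⟩
      · rintro ⟨h1, h2⟩
        exact ⟨⟨h2, h1 ▸ hk⟩, h1⟩
    conv_lhs => rw [e1]
    rw [card_union_of_disjoint d1, card_union_of_disjoint d2, card_singleton, e2]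
  have hV : D.card + (Dᶜ).card = Fintype.card V := card_add_card_compl D
  -- the levels
  have hsum1 : ∑ k ∈ Icc 1 (r - 1), (lev G s k \ D).card + ((G.dist s u - 1) + (G.dist s w - 1)) =
      ∑ k ∈ Icc 1 (r - 1), (ZZ G D s u w k).card := by
    rw [← sum_ind88 (r - 1) (G.dist s u) hu1 (by omega),
      ← sum_ind88 (r - 1) (G.dist s w) hw1 (by omega), ← sum_add_distrib, ← sum_add_distrib]
    exact sum_congr rfl fun k _ => lev_sdiff88 hC
  have hsum2 : ∑ k ∈ Icc 1 (r - 1), (ZZ G D s u w k).card + (QQ G r D s u w).card =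
      4 * (r - 1) + ∑ k ∈ Icc 1 (r - 1), ((ZZ G D s u w k).card - 4) := by
    have e1 : (QQ G r D s u w).card =
        ∑ k ∈ Icc 1 (r - 1), (if (ZZ G D s u w k).card = 3 then 1 else 0) := by
      rw [QQ, card_filter]
    have e2 : 4 * (r - 1) = ∑ _k ∈ Icc 1 (r - 1), 4 := by
      rw [sum_const, Nat.card_Icc, smul_eq_mul]
      have : r - 1 + 1 - 1 = r - 1 := by omega
      rw [this, mul_comm]
    rw [e1, e2, ← sum_add_distrib, ← sum_add_distrib]
    refine sum_congr rfl fun k hk => ?_
    rw [mem_Icc] at hk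
    have := hz k hk.1 hk.2
    split_ifs with h <;> omega
  rw [EX]
  omega

end

end MP_761168_co
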