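import Pool.Agent.Lib.MP_761168_co.X.JM3_10
import Pool.Agent.Lib.MP_761168_co.F.Defs58
import Pool.Agent.Lib.MP_761168_co.F.P1b_88

/-!
Full Jucovic-Moon, row P1 (helper58): the levels outside a maximal light set.
-/

namespace MP_761168_co

open Finset

noncomputable section

open scoped Classical

variable {V : Type*} [Fintype V] {G : SimpleGraph V} {r : ℕ}

theorem mem_ZZ58 {D : Finset V} {s u w v : V} {k : ℕ} :
    v ∈ ZZ G D s u w k ↔ (G.dist s v = k ∧ v ∉ D) ∨ ((v = u ∨ v = w) ∧ k < G.dist s v) := by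
  unfold ZZ
  rw [mem_union, mem_sdiff, mem_lev, mem_filter, mem_insert, mem_singleton]

theorem mem_WW58 {D : Finset V} {s v : V} {k : ℕ} :
    v ∈ WW G D s k ↔ v ∉ D ∧ v ∉ nb G D ∧ k < G.dist s v := by
  unfold WW
  rw [mem_filter]
  simp only [mem_univ, true_and]

theorem mem_BL58 {D : Finset V} {s v : V} {k : ℕ} :
    v ∈ BL G D s k ↔ v ∉ D ∧ v ∉ nb G D ∧ G.dist s v = k := by
  unfold BL
  rw [mem_filter]
  simp only [mem_univ, true_and]

theorem cut_mem58 {D : Finset V} {s u w : V} (hC : Cut G D s u w) :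
    s ∈ nb G D ∧ u ∈ nb G D ∧ w ∈ nb G D := by
  rw [hC.eq]
  refine ⟨?_, ?_, ?_⟩ <;> simp

theorem nb_not_mem58 {D : Finset V} {v : V} (h : v ∈ nb G D) : v ∉ D := (mem_nb.1 h).1

theorem nb_ww_sub58 (hc : G.Connected) {D : Finset V} {s u w : V} (hC : Cut G D s u w) {k : ℕ}
    (h1 : 1 ≤ k) : nb G (WW G D s k) ⊆ ZZ G D s u w k := by
  intro z hz
  rw [mem_nb] at hz
  obtain ⟨hz, v, hv, hvz⟩ := hz
  rw [mem_WW58] at hv hz
  have hzD : z ∉ D := by
    intro h
    rcases mem_or_nb h hvz.symm with h' | h'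
    · exact hv.1 h'
    · exact hv.2.1 h'
  have hd : G.dist s v ≤ G.dist s z + 1 := dist_adj_le hc s hvz.symm
  rw [mem_ZZ58]
  by_cases hzn : z ∈ nb G D
  · rcases eq_or_ne (G.dist s z) k with h | h
    · exact Or.inl ⟨h, hzD⟩
    · have h2 : k < G.dist s z := by omega
      refine Or.inr ⟨?_, h2⟩
      rw [hC.eq, mem_insert, mem_insert, mem_singleton] at hzn
      rcases hzn with rfl | h | h
      · rw [SimpleGraph.dist_self] at h2
        omega
      · exact Or.inl h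
      · exact Or.inr h
  · have h2 : ¬ k < G.dist s z := fun h => hz ⟨hzD, hzn, h⟩
    exact Or.inl ⟨by omega, hzD⟩

theorem far_mem58 (H : Hyp G r) {D : Finset V} {s u w : V} (hM : MaxL G r D)
    (hC : Cut G D s u w) : ∃ y, r ≤ G.dist s y ∧ y ∉ D ∧ y ∉ nb G D := by
  obtain ⟨y, hy⟩ := H.ecc s
  have hs := (cut_mem58 hC).1
  refine ⟨y, hy, ?_, ?_⟩
  · intro h
    have := hM.1.2.2.2 s hs y h
    omega
  · intro h
    have := cut_close H hM.1.1 hM.1.2.1 hM.1.2.2.1 hs h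
    omega

theorem s_not_ZZ58 {D : Finset V} {s u w : V} {k : ℕ} (h1 : 1 ≤ k) : s ∉ ZZ G D s u w k := by
  rw [mem_ZZ58, SimpleGraph.dist_self]
  omega

theorem s_not_WW58 {D : Finset V} {s : V} {k : ℕ} : s ∉ WW G D s k := by
  rw [mem_WW58, SimpleGraph.dist_self]
  omega

theorem zz_three (H : Hyp G r) {D : Finset V} {s u w : V} (hM : MaxL G r D)
    (hC : Cut G D s u w) {k : ℕ} (h1 : 1 ≤ k) (h2 : k ≤ r - 1) : 3 ≤ (ZZ G D s u w k).card := by
  obtain ⟨y, hy, hyD, hyn⟩ := far_mem58 H hM hC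
  have hr := H.r3
  exact three_le H.c3 (X := WW G D s k) ⟨y, mem_WW58.2 ⟨hyD, hyn, by omega⟩⟩
    (nb_ww_sub58 H.conn hC h1) (s_not_WW58 (s := s)) (s_not_ZZ58 h1)

theorem ww_light (H : Hyp G r) {D : Finset V} {s u w : V} (hM : MaxL G r D)
    (hC : Cut G D s u w) {k : ℕ} (h1 : 1 ≤ k) (h2 : k ≤ r - 1)
    (h3 : (ZZ G D s u w k).card = 3) :
    Light G r (WW G D s k) ∧ nb G (WW G D s k) = ZZ G D s u w k := by
  obtain ⟨y, hy, hyD, hyn⟩ := far_mem58 H hM hC
  have hr := H.r3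
  have hne : (WW G D s k).Nonempty := ⟨y, mem_WW58.2 ⟨hyD, hyn, by omega⟩⟩
  have hnb : nb G (WW G D s k) = ZZ G D s u w k :=
    nb_eq_of_three H.c3 hne (nb_ww_sub58 H.conn hC h1) (s_not_WW58 (s := s)) (s_not_ZZ58 h1) h3
  have hsM : s ∈ (WW G D s k ∪ nb G (WW G D s k))ᶜ := by
    rw [mem_compl, mem_union, hnb]
    rintro (h | h)
    · exact s_not_WW58 h
    · exact s_not_ZZ58 h1 h
  refine ⟨?_, hnb⟩
  rcases dichotomy H hne (by rw [hnb]; exact h3) (by
      intro h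
      rw [mem_compl, h] at hsM
      exact hsM (mem_univ _)) with h | h
  · exact h
  · exfalso
    obtain ⟨d, hd⟩ := hM.1.1
    have hcut := cut_mem58 hC
    have hdM : d ∈ (WW G D s k ∪ nb G (WW G D s k))ᶜ := by
      rw [mem_compl, mem_union, hnb, mem_WW58, mem_ZZ58]
      rintro (h' | h')
      · exact h'.1 hd
      · rcases h' with ⟨-, h'⟩ | ⟨rfl | rfl, -⟩
        · exact h' hd
        · exact nb_not_mem58 hcut.2.1 hd
        · exact nb_not_mem58 hcut.2.2 hd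
    have := hM.2 _ h ⟨d, mem_inter.2 ⟨hdM, hd⟩⟩
    exact nb_not_mem58 hcut.1 (this hsM)

theorem count_out (H : Hyp G r) {D : Finset V} {s u w : V} (hM : MaxL G r D)
    (hC : Cut G D s u w) :
    Fintype.card V + (QQ G r D s u w).card + G.dist s u + G.dist s w =
      D.card + 4 * r + EX G r D s u w := by
  have hcut := cut_mem58 hC
  exact count_out_of88 H hM.1 hC (fun k h1 h2 => zz_three H hM hC h1 h2)
    (cut_close H hM.1.1 hM.1.2.1 hM.1.2.2.1 hcut.1 hcut.2.1)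
    (cut_close H hM.1.1 hM.1.2.1 hM.1.2.2.1 hcut.1 hcut.2.2)

end

end MP_761168_co
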