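import Pool.Agent.Lib.MP_761168_co.F.Defs58
import Pool.Agent.Lib.MP_761168_co.F.P1_58

/-!
Full Jucovic-Moon, row P3 (helper10): claim 2 and the size of `W`.
-/

namespace MP_761168_co

open Finset

noncomputable section

open scoped Classical

variable {V : Type*} [Fintype V] {G : SimpleGraph V} {r : ℕ}

theorem mem_ww {D : Finset V} {s v : V} {k : ℕ} :
    v ∈ WW G D s k ↔ v ∉ D ∧ v ∉ nb G D ∧ k < G.dist s v := by simp [WW]

theorem mem_bl {D : Finset V} {s v : V} {k : ℕ} :
    v ∈ BL G D s k ↔ v ∉ D ∧ v ∉ nb G D ∧ G.dist s v = k := by simp [BL]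

theorem mem_qq {D : Finset V} {s u w : V} {k : ℕ} :
    k ∈ QQ G r D s u w ↔ (1 ≤ k ∧ k ≤ r - 1) ∧ (ZZ G D s u w k).card = 3 := by
  simp [QQ]

theorem Cut.mem {D : Finset V} {s u w v : V} (hC : Cut G D s u w) :
    v ∈ nb G D ↔ v = s ∨ v = u ∨ v = w := by
  rw [hC.eq]; simp

theorem claim2 (H : Hyp G r) {D : Finset V} {s u w : V} (hM : MaxL G r D)
    (hC : Cut G D s u w) {k : ℕ} (hk : k ∈ QQ G r D s u w) :
    ¬ (k < G.dist s u ∧ k < G.dist s w) := by
  rintro ⟨hu, hw⟩
  rw [mem_qq] at hk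
  obtain ⟨⟨h1, h2⟩, h3⟩ := hk
  obtain ⟨hL, hnb⟩ := ww_light H hM hC h1 h2 h3
  have hZ : ZZ G D s u w k = (lev G s k \ D) ∪ {u, w} := by
    rw [ZZ, filter_true_of_mem]
    intro p hp
    rw [mem_insert, mem_singleton] at hp
    rcases hp with rfl | rfl <;> assumption
  have hone : (lev G s k \ D).card = 1 := by
    have hd : Disjoint (lev G s k \ D) ({u, w} : Finset V) := by
      rw [disjoint_left]
      intro v hv hv2
      rw [mem_sdiff, mem_lev] at hv
      rw [mem_insert, mem_singleton] at hv2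
      rcases hv2 with rfl | rfl <;> omega
    rw [hZ, card_union_of_disjoint hd, card_pair hC.uw] at h3
    omega
  -- nothing is below level `k`
  have hR : ∀ v, v ∉ D → v ∉ nb G D → ¬ G.dist s v < k := by
    intro v hvD hvN hvk
    obtain ⟨d, hd⟩ := hM.1.1
    have hne : (univ.filter (fun v => v ∉ D ∧ v ∉ nb G D ∧ G.dist s v < k)).Nonempty :=
      ⟨v, by simp [hvD, hvN, hvk]⟩
    have h := three_le H.c3 (Z := insert s (lev G s k \ D)) (y := d) hne ?_ ?_ ?_
    · have := card_insert_le s (lev G s k \ D)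
      omega
    · intro v hv
      rw [mem_nb] at hv
      obtain ⟨hv1, x, hx, hxv⟩ := hv
      rw [mem_filter] at hv1 hx
      obtain ⟨_, hx1, hx2, hx3⟩ := hx
      have hvD : v ∉ D := fun h => by
        rcases mem_or_nb h hxv.symm with h4 | h4
        · exact hx1 h4
        · exact hx2 h4
      have hdist := dist_adj_le H.conn s hxv
      rw [mem_insert, mem_sdiff, mem_lev]
      by_cases hvN : v ∈ nb G D
      · rcases hC.mem.1 hvN with rfl | rfl | rfl
        · exact Or.inl rfl
        · omega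
        · omega
      · right
        refine ⟨?_, hvD⟩
        by_contra hne
        apply hv1
        refine ⟨mem_univ _, hvD, hvN, ?_⟩
        omega
    · rw [mem_filter]; tauto
    · rw [mem_insert, mem_sdiff]
      rintro (rfl | h)
      · exact nb_disj D (hC.mem.2 (Or.inl rfl)) hd
      · exact h.2 hd
  have hsub : (WW G D s k ∪ nb G (WW G D s k))ᶜ ⊆ insert s D := by
    intro v hv
    rw [mem_compl, mem_union, hnb] at hv
    rw [mem_insert]
    by_contra hcon
    push Not at hcon
    obtain ⟨hvs, hvD⟩ := hcon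
    apply hv
    by_cases hvN : v ∈ nb G D
    · right
      rw [hZ, mem_union, mem_insert, mem_singleton]
      rcases hC.mem.1 hvN with rfl | rfl | rfl
      · exact absurd rfl hvs
      · right; left; rfl
      · right; right; rfl
    · rcases lt_trichotomy (G.dist s v) k with h | h | h
      · exact absurd h (hR v hvD hvN)
      · right
        rw [hZ, mem_union, mem_sdiff, mem_lev]
        exact Or.inl ⟨h, hvD⟩
      · left
        rw [mem_ww]
        exact ⟨hvD, hvN, h⟩
  have c1 := card_le_card hsub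
  have c2 := card_insert_le s D
  have c3 := light_big H hL
  have c4 := light_small H hM.1
  omega

theorem ww_step (D : Finset V) (s : V) (m : ℕ) :
    (WW G D s m).card = (BL G D s (m + 1)).card + (WW G D s (m + 1)).card := by
  rw [← card_union_of_disjoint]
  · congr 1
    ext v
    rw [mem_union, mem_ww, mem_ww, mem_bl]
    constructor
    · rintro ⟨h1, h2, h3⟩
      rcases Nat.lt_or_eq_of_le (Nat.succ_le_of_lt h3) with h | h
      · exact Or.inr ⟨h1, h2, h⟩
      · exact Or.inl ⟨h1, h2, h.symm⟩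
    · rintro (⟨h1, h2, h3⟩ | ⟨h1, h2, h3⟩)
      · exact ⟨h1, h2, by omega⟩
      · exact ⟨h1, h2, by omega⟩
  · rw [disjoint_left]
    intro v hv hv2
    rw [mem_bl] at hv
    rw [mem_ww] at hv2
    omega

theorem ww_sum (D : Finset V) (s : V) {k m : ℕ} (h : k ≤ m) :
    (WW G D s k).card = ∑ j ∈ Finset.Ioc k m, (BL G D s j).card + (WW G D s m).card := by
  induction m, h using Nat.le_induction with
  | base => simp
  | succ m hm ih =>
    rw [Finset.sum_Ioc_succ_top (by omega), ih, ww_step D s m]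
    ring

theorem sum_ind (d : ℕ) {k m : ℕ} (h : k ≤ m) :
    ∑ j ∈ Finset.Ioc k m, (if j ≤ d then 1 else 0) = min d m - k := by
  induction m, h using Nat.le_induction with
  | base => simp
  | succ m hm ih =>
    rw [Finset.sum_Ioc_succ_top (by omega), ih]
    split_ifs with h1 <;> omega

/-- The exact size of `W_k` from the sizes of the `Z_j`. -/
theorem ww_identity (H : Hyp G r) {D : Finset V} {s u w : V} (hC : Cut G D s u w) {k : ℕ}
    (hk : k ≤ r - 1) :
    (WW G D s k).card + (min (G.dist s u) (r - 1) - k) + (min (G.dist s w) (r - 1) - k) =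
      ∑ j ∈ Finset.Ioc k (r - 1), (ZZ G D s u w j).card + (WW G D s (r - 1)).card := by
  have h1 := ww_sum (G := G) D s hk
  have h2 := sum_ind (G.dist s u) hk
  have h3 := sum_ind (G.dist s w) hk
  have h4 : ∑ j ∈ Finset.Ioc k (r - 1), (ZZ G D s u w j).card =
      ∑ j ∈ Finset.Ioc k (r - 1), (BL G D s j).card +
        (∑ j ∈ Finset.Ioc k (r - 1), (if j ≤ G.dist s u then 1 else 0) +
          ∑ j ∈ Finset.Ioc k (r - 1), (if j ≤ G.dist s w then 1 else 0)) := by
    rw [← Finset.sum_add_distrib, ← Finset.sum_add_distrib]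
    refine Finset.sum_congr rfl fun j hj => ?_
    rw [mem_Ioc] at hj
    exact (bl_card H hC (by omega)).symm
  omega

theorem far_ww (H : Hyp G r) {D : Finset V} {s u w : V} (hM : MaxL G r D)
    (hC : Cut G D s u w) : 1 ≤ (WW G D s (r - 1)).card := by
  obtain ⟨y, hy⟩ := H.ecc s
  have hr := H.r3
  rw [Nat.succ_le_iff, card_pos]
  refine ⟨y, ?_⟩
  rw [mem_ww]
  have hs : s ∈ nb G D := hC.mem.2 (Or.inl rfl)
  refine ⟨fun h => ?_, fun h => ?_, by omega⟩
  · have := hM.1.2.2.2 s hs y h; omega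
  · have := cut_close H hM.1.1 hM.1.2.1 hM.1.2.2.1 hs h; omega

theorem ww_card_ge (H : Hyp G r) {D : Finset V} {s u w : V} (hM : MaxL G r D)
    (hC : Cut G D s u w) {k : ℕ} (hk : k ∈ QQ G r D s u w) :
    4 * (r - k) ≤ (WW G D s k).card + (QQ G r D s u w).card + 2 + (G.dist s u - k) +
      (G.dist s w - k) := by
  have hk' := mem_qq.1 hk
  obtain ⟨⟨h1, h2⟩, h3⟩ := hk'
  have hr := H.r3
  have hid := ww_identity (r := r) H hC h2
  have hfar := far_ww H hM hC
  have hsum : 4 * (r - 1 - k) ≤ ∑ j ∈ Finset.Ioc k (r - 1), (ZZ G D s u w j).card +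
      ((Finset.Ioc k (r - 1)).filter (fun j => j ∈ QQ G r D s u w)).card := by
    rw [card_filter, ← Finset.sum_add_distrib]
    have hc : (Finset.Ioc k (r - 1)).card • 4 ≤ ∑ j ∈ Finset.Ioc k (r - 1),
        ((ZZ G D s u w j).card + if j ∈ QQ G r D s u w then 1 else 0) := by
      refine Finset.card_nsmul_le_sum _ _ _ fun j hj => ?_
      rw [mem_Ioc] at hj
      have hz := zz_three H hM hC (k := j) (by omega) hj.2
      split_ifs with hq
      · omega
      · have : (ZZ G D s u w j).card ≠ 3 := fun h => hq (mem_qq.2 ⟨⟨by omega, hj.2⟩, h⟩)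
        omega
    rw [Nat.card_Ioc, smul_eq_mul] at hc
    omega
  have hle : ((Finset.Ioc k (r - 1)).filter (fun j => j ∈ QQ G r D s u w)).card ≤
      ((QQ G r D s u w).erase k).card := by
    refine card_le_card fun j hj => ?_
    rw [mem_filter, mem_Ioc] at hj
    rw [mem_erase]
    exact ⟨by omega, hj.2⟩
  rw [card_erase_of_mem hk] at hle
  have hpos : 1 ≤ (QQ G r D s u w).card := card_pos.2 ⟨k, hk⟩
  omega

/-- levels without excess -/
theorem zz_le_four (H : Hyp G r) {D : Finset V} {s u w : V} (hM : MaxL G r D)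
    (hC : Cut G D s u w) (hex : EX G r D s u w = 0) {k : ℕ} (h1 : 1 ≤ k) (h2 : k ≤ r - 1) :
    (ZZ G D s u w k).card ≤ 4 := by
  have h : ∑ k ∈ Finset.Icc 1 (r - 1), ((ZZ G D s u w k).card - 4) = 0 := by
    unfold EX at hex; omega
  rw [Finset.sum_eq_zero_iff] at h
  have := h k (mem_Icc.2 ⟨h1, h2⟩)
  omega

/-- exact value when there is no excess and `k` is the least quasi-thin level -/
theorem ww_card_eq (H : Hyp G r) {D : Finset V} {s u w : V} (hM : MaxL G r D)
    (hC : Cut G D s u w) {k : ℕ} (hk : k ∈ QQ G r D s u w) (hmin : ∀ j ∈ QQ G r D s u w, k ≤ j)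
    (hex : EX G r D s u w = 0) :
    4 * (r - k) = (WW G D s k).card + (QQ G r D s u w).card + 2 + (G.dist s u - k) +
      (G.dist s w - k) := by
  have hk' := mem_qq.1 hk
  obtain ⟨⟨h1, h2⟩, h3⟩ := hk'
  have hr := H.r3
  have hid := ww_identity (r := r) H hC h2
  have hfar := far_ww H hM hC
  have hfar2 : (WW G D s (r - 1)).card ≤ 1 := by unfold EX at hex; omega
  have hsm : s ∈ nb G D := hC.mem.2 (Or.inl rfl)
  have hu := cut_close H hM.1.1 hM.1.2.1 hM.1.2.2.1 hsm (hC.mem.2 (Or.inr (Or.inl rfl)))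
  have hw := cut_close H hM.1.1 hM.1.2.1 hM.1.2.2.1 hsm (hC.mem.2 (Or.inr (Or.inr rfl)))
  have hsum : 4 * (r - 1 - k) = ∑ j ∈ Finset.Ioc k (r - 1), (ZZ G D s u w j).card +
      ((Finset.Ioc k (r - 1)).filter (fun j => j ∈ QQ G r D s u w)).card := by
    rw [card_filter, ← Finset.sum_add_distrib]
    have hc : ∑ j ∈ Finset.Ioc k (r - 1),
        ((ZZ G D s u w j).card + if j ∈ QQ G r D s u w then 1 else 0) =
        ∑ _j ∈ Finset.Ioc k (r - 1), 4 := by
      refine Finset.sum_congr rfl fun j hj => ?_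
      rw [mem_Ioc] at hj
      have hz := zz_three H hM hC (k := j) (by omega) hj.2
      have hz2 := zz_le_four H hM hC hex (k := j) (by omega) hj.2
      split_ifs with hq
      · have := (mem_qq.1 hq).2
        omega
      · have : (ZZ G D s u w j).card ≠ 3 := fun h => hq (mem_qq.2 ⟨⟨by omega, hj.2⟩, h⟩)
        omega
    rw [hc, Finset.sum_const, Nat.card_Ioc, smul_eq_mul]
    omega
  have heq : (Finset.Ioc k (r - 1)).filter (fun j => j ∈ QQ G r D s u w) =
      (QQ G r D s u w).erase k := by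
    ext j
    rw [mem_filter, mem_Ioc, mem_erase]
    constructor
    · rintro ⟨h4, h5⟩
      exact ⟨by omega, h5⟩
    · rintro ⟨h4, h5⟩
      have h6 := hmin j h5
      have h7 := (mem_qq.1 h5).1
      exact ⟨⟨by omega, h7.2⟩, h5⟩
  rw [heq, card_erase_of_mem hk] at hsum
  have hpos : 1 ≤ (QQ G r D s u w).card := card_pos.2 ⟨k, hk⟩
  omega

/-- if all levels from `k` on are quasi-thin -/
theorem qq_full {D : Finset V} {s u w : V} {k : ℕ}
    (hmin : ∀ j ∈ QQ G r D s u w, k ≤ j) (hcard : (QQ G r D s u w).card = r - k) {j : ℕ}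
    (h1 : k ≤ j) (h2 : j ≤ r - 1) (h0 : 1 ≤ k) : (ZZ G D s u w j).card = 3 := by
  have hsub : QQ G r D s u w ⊆ Finset.Icc k (r - 1) := by
    intro i hi
    rw [mem_Icc]
    exact ⟨hmin i hi, (mem_qq.1 hi).1.2⟩
  have heq : QQ G r D s u w = Finset.Icc k (r - 1) := by
    refine eq_of_subset_of_card_le hsub ?_
    rw [hcard, Nat.card_Icc]
    omega
  have : j ∈ QQ G r D s u w := by rw [heq, mem_Icc]; exact ⟨h1, h2⟩
  exact (mem_qq.1 this).2

end

end MP_761168_co
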