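import Pool.Agent.Lib.MP_761168_co.F.Defs58

/-!
Radius of 3-connected graphs, full form, row P4: the cases A2 and A1 (i) (helper51).
-/

namespace MP_761168_co

open Finset

noncomputable section

open scoped Classical

variable {V : Type*} [Fintype V] {G : SimpleGraph V}

/-- The members of `D` at distance exactly `k` from `p`. -/
def lv51 (G : SimpleGraph V) (D : Finset V) (p : V) (k : ℕ) : Finset V :=
  D.filter (fun v => G.dist p v = k)

omit [Fintype V] in
theorem mem_lv51 {D : Finset V} {p v : V} {k : ℕ} :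
    v ∈ lv51 G D p k ↔ v ∈ D ∧ G.dist p v = k := by simp [lv51]

omit [Fintype V] in
theorem dist_tri51 (hc : G.Connected) (u v w : V) : G.dist u w ≤ G.dist u v + G.dist v w :=
  hc.dist_triangle

omit [Fintype V] in
/-- A set covered by three sets of size two, which are pairwise equal or disjoint, does not
have three elements. -/
theorem union_even51 {A B C : Finset V} (hA : A.card = 2) (hB : B.card = 2) (hC : C.card = 2)
    (hAB : A = B ∨ Disjoint A B) (hAC : A = C ∨ Disjoint A C) (hBC : B = C ∨ Disjoint B C) :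
    (A ∪ B ∪ C).card ≠ 3 := by
  rcases hAB with h | h
  · subst h
    rw [union_self]
    rcases hAC with h2 | h2
    · subst h2
      rw [union_self]
      omega
    · rw [card_union_of_disjoint h2]
      omega
  · rcases hAC with h2 | h2
    · subst h2
      rw [union_comm (A ∪ B), ← union_assoc, union_self, card_union_of_disjoint h]
      omega
    · rcases hBC with h3 | h3
      · subst h3
        rw [union_assoc, union_self, card_union_of_disjoint h]
        omega
      · rw [card_union_of_disjoint (disjoint_union_left.2 ⟨h2, h3⟩), card_union_of_disjoint h]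
        omega

/-- Case A2: a tripod whose terminals are on the level `κ` of `s` and which is above this level
does not have exactly three members on the level `κ + 2`. -/
theorem caseA2_51 (hcn : G.Connected) {W : Finset V} {s : V} {κ : ℕ}
    (hlev : ∀ z ∈ nb G W, G.dist s z = κ) (hW : ∀ v ∈ W, κ < G.dist s v)
    (h3 : (nb G W).card = 3)
    (h4 : ∀ p ∈ nb G W, ∀ p' ∈ nb G W, p ≠ p' → 4 ≤ G.dist p p')
    (h2 : ∀ p ∈ nb G W, (lv51 G W p 2).card = 2)
    (h5 : ∀ p ∈ nb G W, ∀ p' ∈ nb G W,
      lv51 G W p 2 = lv51 G W p' 2 ∨ Disjoint (lv51 G W p 2) (lv51 G W p' 2))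
    (hc : (lv51 G W s (κ + 2)).card = 3) : False := by
  obtain ⟨p, q, t, hpq, hpt, hqt, he⟩ := card_eq_three.1 h3
  have hp : p ∈ nb G W := by rw [he]; simp
  have hq : q ∈ nb G W := by rw [he]; simp
  have ht : t ∈ nb G W := by rw [he]; simp
  refine union_even51 (h2 p hp) (h2 q hq) (h2 t ht) (h5 p hp q hq) (h5 p hp t ht) (h5 q hq t ht) ?_
  rw [← hc]
  congr 1
  have hsub : ∀ z ∈ nb G W, ∀ v ∈ lv51 G W z 2, v ∈ lv51 G W s (κ + 2) := by
    intro z hz v hv
    rw [mem_lv51] at hv ⊢
    refine ⟨hv.1, ?_⟩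
    have h6 := hW v hv.1
    have h7 := dist_tri51 hcn s z v
    have h8 := hlev z hz
    by_contra h9
    have h10 : G.dist s v = κ + 1 := by omega
    have hsv : s ≠ v := by
      intro h; subst h; rw [SimpleGraph.dist_self] at h6; omega
    obtain ⟨x, hx1, hx2⟩ := exists_pred hcn hsv
    have h11 : x ∉ W := by
      intro h; have := hW x h; omega
    have h12 : x ∈ nb G W := by
      rw [mem_nb]; exact ⟨h11, v, hv.1, hx1.symm⟩
    have h13 : G.dist x v = 1 := SimpleGraph.dist_eq_one_iff_adj.2 hx1
    have h14 : z ≠ x := by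
      intro h; subst h; omega
    have h15 := h4 z hz x h12 h14
    have h16 := dist_tri51 hcn z v x
    rw [G.dist_comm (u := v)] at h16
    omega
  ext v
  simp only [mem_union]
  constructor
  · rintro ((h | h) | h)
    · exact hsub p hp v h
    · exact hsub q hq v h
    · exact hsub t ht v h
  · intro hv
    rw [mem_lv51] at hv
    have hsv : s ≠ v := by
      intro h; subst h; rw [SimpleGraph.dist_self] at hv; omega
    obtain ⟨x, hx1, hx2⟩ := exists_pred hcn hsv
    have hxW : x ∈ W := by
      by_contra h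
      have h12 : x ∈ nb G W := by
        rw [mem_nb]; exact ⟨h, v, hv.1, hx1.symm⟩
      have := hlev x h12
      omega
    have hsx : s ≠ x := by
      intro h; subst h; have := hW s hxW; rw [SimpleGraph.dist_self] at this; omega
    obtain ⟨z, hz1, hz2⟩ := exists_pred hcn hsx
    have hzW : z ∉ W := by
      intro h; have := hW z h; omega
    have hz : z ∈ nb G W := by
      rw [mem_nb]; exact ⟨hzW, x, hxW, hz1.symm⟩
    have h5' := dist_tri51 hcn z x v
    have h6 : G.dist z x = 1 := SimpleGraph.dist_eq_one_iff_adj.2 hz1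
    have h7 : G.dist x v = 1 := SimpleGraph.dist_eq_one_iff_adj.2 hx1
    have h8 := dist_tri51 hcn s z v
    have h9 : G.dist z v = 2 := by omega
    have hz' := hz
    rw [he, mem_insert, mem_insert, mem_singleton] at hz'
    have hm : v ∈ lv51 G W z 2 := mem_lv51.2 ⟨hv.1, h9⟩
    rcases hz' with h | h | h
    · subst h; exact Or.inl (Or.inl hm)
    · subst h; exact Or.inl (Or.inr hm)
    · subst h; exact Or.inr hm

/-- Case A1 (i): a tripod `D = W ∪ {x}`, where `W` is the set above the level `κ` of `s` with its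
three neighbours on the level `κ`, gives at least four members of `W` on the level `κ + 1`. -/
theorem caseA1_51 (hcn : G.Connected) {W D : Finset V} {s x : V} {κ : ℕ}
    (hlev : ∀ z ∈ nb G W, G.dist s z = κ) (hW : ∀ v ∈ W, κ < G.dist s v)
    (hWn : W.Nonempty) (h3 : (nb G W).card = 3)
    (hD : D = insert x W) (hx : x ∉ W) (h3D : (nb G D).card = 3)
    (h4 : ∀ p ∈ nb G D, ∀ p' ∈ nb G D, p ≠ p' → 4 ≤ G.dist p p')
    (h1 : ∀ p ∈ nb G D, (lv51 G D p 1).card = 1)
    (h2 : ∀ p ∈ nb G D, (lv51 G D p 2).card = 2)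
    (hc : (lv51 G W s (κ + 1)).card ≤ 3) : False := by
  have hWD : W ⊆ D := by rw [hD]; exact subset_insert _ _
  have hxD : x ∈ D := by rw [hD]; exact mem_insert_self _ _
  have hmem : ∀ v ∈ D, v = x ∨ v ∈ W := by
    intro v hv; rw [hD, mem_insert] at hv; exact hv
  -- neighbours of W other than x are neighbours of D
  have hsub : ∀ z ∈ nb G W, z ≠ x → z ∈ nb G D := by
    intro z hz hzx
    rw [mem_nb] at hz ⊢
    obtain ⟨hz1, y, hy, hyz⟩ := hz
    refine ⟨?_, y, hWD hy, hyz⟩
    intro h
    rcases hmem z h with h | h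
    · exact hzx h
    · exact hz1 h
  -- the only neighbour in D of such a z is in W
  have huniq : ∀ p ∈ nb G D, ∀ y ∈ D, ∀ y' ∈ D, G.Adj y p → G.Adj y' p → y = y' := by
    intro p hp y hy y' hy' hyp hyp'
    have h6 := h1 p hp
    rw [card_eq_one] at h6
    obtain ⟨a, ha⟩ := h6
    have h7 : y ∈ lv51 G D p 1 :=
      mem_lv51.2 ⟨hy, SimpleGraph.dist_eq_one_iff_adj.2 hyp.symm⟩
    have h8 : y' ∈ lv51 G D p 1 :=
      mem_lv51.2 ⟨hy', SimpleGraph.dist_eq_one_iff_adj.2 hyp'.symm⟩
    rw [ha, mem_singleton] at h7 h8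
    rw [h7, h8]
  have hnx : ∀ z ∈ nb G W, z ≠ x → ¬ G.Adj x z := by
    intro z hz hzx hadj
    have hzD := hsub z hz hzx
    rw [mem_nb] at hz
    obtain ⟨hz1, y, hy, hyz⟩ := hz
    have := huniq z hzD y (hWD hy) x hxD hyz hadj
    subst this
    exact hx hy
  by_cases hxZ : x ∈ nb G W
  · -- the other two
    have hcard : ((nb G W).erase x).card = 2 := by rw [card_erase_of_mem hxZ, h3]
    obtain ⟨z, z', hzz, he⟩ := card_eq_two.1 hcard
    have hz : z ∈ (nb G W).erase x := by rw [he]; simp
    have hz' : z' ∈ (nb G W).erase x := by rw [he]; simp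
    rw [mem_erase] at hz hz'
    have hzD := hsub z hz.2 hz.1
    have hzD' := hsub z' hz'.2 hz'.1
    have hcard2 : (((nb G D).erase z).erase z').card = 1 := by
      rw [card_erase_of_mem (mem_erase.2 ⟨hzz.symm, hzD'⟩), card_erase_of_mem hzD, h3D]
    obtain ⟨t, ht⟩ := card_eq_one.1 hcard2
    have ht' : t ∈ ((nb G D).erase z).erase z' := by rw [ht]; simp
    rw [mem_erase, mem_erase] at ht'
    obtain ⟨htz', htz, htD⟩ := ht'
    have hDeq : ∀ p ∈ nb G D, p = z ∨ p = z' ∨ p = t := by
      intro p hp
      by_cases h6 : p = z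
      · exact Or.inl h6
      · by_cases h7 : p = z'
        · exact Or.inr (Or.inl h7)
        · have : p ∈ ((nb G D).erase z).erase z' := by
            rw [mem_erase, mem_erase]; exact ⟨h7, h6, hp⟩
          rw [ht, mem_singleton] at this
          exact Or.inr (Or.inr this)
    have htW : t ∉ nb G W := by
      intro h
      have htx : t ≠ x := by
        intro h6; subst h6; exact (mem_nb.1 htD).1 hxD
      have h7 : t ∈ (nb G W).erase x := mem_erase.2 ⟨htx, h⟩
      rw [he, mem_insert, mem_singleton] at h7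
      rcases h7 with h7 | h7
      · exact htz h7
      · exact htz' h7
    have htxadj : G.Adj x t := by
      obtain ⟨h6, y, hy, hyt⟩ := mem_nb.1 htD
      rcases hmem y hy with h7 | h7
      · subst h7; exact hyt
      · exfalso
        exact htW (mem_nb.2 ⟨fun h => h6 (hWD h), y, h7, hyt⟩)
    -- the two members of D at distance 2 from t are neighbours of x in W
    have hN2 : ∀ v ∈ lv51 G D t 2, v ∈ lv51 G W s (κ + 1) := by
      intro v hv
      rw [mem_lv51] at hv
      have htv : t ≠ v := by
        intro h; subst h; rw [SimpleGraph.dist_self] at hv; omega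
      obtain ⟨m, hm1, hm2⟩ := exists_pred hcn htv
      have hm3 : G.dist t m = 1 := by omega
      have hmt : G.Adj t m := SimpleGraph.dist_eq_one_iff_adj.1 hm3
      have hmD : m ∈ D := by
        by_contra h
        have h6 : m ∈ nb G D := mem_nb.2 ⟨h, v, hv.1, hm1.symm⟩
        have h7 : t ≠ m := hmt.ne
        have := h4 t htD m h6 h7
        omega
      have hmx : m = x := huniq t htD m hmD x hxD hmt.symm htxadj
      subst hmx
      have hvx : v ≠ m := hm1.ne'
      have hvW : v ∈ W := (hmem v hv.1).resolve_left hvx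
      rw [mem_lv51]
      refine ⟨hvW, ?_⟩
      have h6 := hW v hvW
      have h7 := hlev m hxZ
      have h8 := dist_adj_le hcn s hm1
      omega
    -- the neighbours of z and z'
    have hN1 : ∀ p ∈ nb G W, p ≠ x → ∃ v ∈ lv51 G W s (κ + 1), G.Adj v p := by
      intro p hp hpx
      obtain ⟨h6, y, hy, hyp⟩ := mem_nb.1 hp
      refine ⟨y, ?_, hyp⟩
      rw [mem_lv51]
      refine ⟨hy, ?_⟩
      have h7 := hW y hy
      have h8 := hlev p hp
      have h9 := dist_adj_le hcn s hyp.symm
      omega
    obtain ⟨y, hy, hyz⟩ := hN1 z hz.2 hz.1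
    obtain ⟨y', hy', hyz'⟩ := hN1 z' hz'.2 hz'.1
    have hyy : y ≠ y' := by
      intro h; subst h
      have h6 := h4 z hzD z' hzD' hzz
      have h7 := dist_tri51 hcn z y z'
      have h8 : G.dist z y = 1 := SimpleGraph.dist_eq_one_iff_adj.2 hyz.symm
      have h9 : G.dist y z' = 1 := SimpleGraph.dist_eq_one_iff_adj.2 hyz'
      omega
    have hfar : ∀ p ∈ nb G D, p ≠ t → ∀ v, G.Adj v p → v ∉ lv51 G D t 2 := by
      intro p hp hpt v hvp hv
      rw [mem_lv51] at hv
      have h6 := h4 t htD p hp hpt.symm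
      have h7 := dist_tri51 hcn t v p
      have h8 : G.dist v p = 1 := SimpleGraph.dist_eq_one_iff_adj.2 hvp
      omega
    have hy2 : y ∉ lv51 G D t 2 := hfar z hzD htz.symm y hyz
    have hy2' : y' ∉ lv51 G D t 2 := hfar z' hzD' htz'.symm y' hyz'
    have hsub4 : insert y (insert y' (lv51 G D t 2)) ⊆ lv51 G W s (κ + 1) := by
      intro v hv
      rw [mem_insert, mem_insert] at hv
      rcases hv with h | h | h
      · rw [h]; exact hy
      · rw [h]; exact hy'
      · exact hN2 v h
    have hcard4 := card_le_card hsub4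
    rw [card_insert_of_notMem, card_insert_of_notMem hy2', h2 t htD] at hcard4
    · omega
    · rw [mem_insert]
      rintro (h | h)
      · exact hyy h
      · exact hy2 h
  · -- x has no neighbour
    have hsub2 : nb G W ⊆ nb G D := by
      intro z hz
      exact hsub z hz (fun h => hxZ (h ▸ hz))
    have heq : nb G W = nb G D := eq_of_subset_of_card_le hsub2 (by omega)
    have hno : ∀ y, ¬ G.Adj x y := by
      intro y hxy
      by_cases hy : y ∈ D
      · rcases hmem y hy with h | h
        · subst h; exact G.irrefl hxy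
        · exact hxZ (mem_nb.2 ⟨hx, y, h, hxy.symm⟩)
      · have h6 : y ∈ nb G D := mem_nb.2 ⟨hy, x, hxD, hxy⟩
        have h7 : y ∈ nb G W := by rw [heq]; exact h6
        exact hnx y h7 (fun h => hy (h ▸ hxD)) hxy
    obtain ⟨w, hw⟩ := hWn
    have hwx : w ≠ x := fun h => hx (h ▸ hw)
    obtain ⟨u, hu1, hu2⟩ := exists_pred hcn hwx
    exact hno u hu1.symm

theorem lv_eq51 (D : Finset V) (p : V) (k : ℕ) : lev G p k ∩ D = lv51 G D p k := by
  ext v
  rw [mem_inter, mem_lev, mem_lv51]
  tauto

/-- (A2) -/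
theorem tri_lev2 (hc : G.Connected) {W : Finset V} {s : V} {k : ℕ} (h3 : (nb G W).card = 3)
    (hT : TriS G W) (_hs : s ∉ W) (hf : ∀ z ∈ nb G W, G.dist s z = k)
    (hW : ∀ v ∈ W, k < G.dist s v) :
    (W.filter (fun v => G.dist s v = k + 2)).card ≠ 3 := by
  intro h
  refine caseA2_51 hc hf hW h3 hT.four ?_ ?_ h
  · intro p hp
    rw [← lv_eq51]
    exact hT.two p hp
  · intro p hp p' hp'
    by_cases he : p = p'
    · exact Or.inl (by rw [he])
    · rw [← lv_eq51, ← lv_eq51]
      exact hT.eqd p hp p' hp' he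

/-- (A1 (i)) -/
theorem tri_plus (hc : G.Connected) {W D : Finset V} {s : V} {k : ℕ} (h3 : (nb G W).card = 3)
    (hD3 : (nb G D).card = 3) (hsub : W ⊆ D) (hcard : D.card = W.card + 1)
    (hT : TriS G D) (hf : ∀ z ∈ nb G W, G.dist s z = k) (hW : ∀ v ∈ W, k < G.dist s v) :
    4 ≤ (W.filter (fun v => G.dist s v = k + 1)).card := by
  by_contra h
  have h1 : (D \ W).card = 1 := by
    rw [card_sdiff_of_subset hsub]; omega
  obtain ⟨x, hx⟩ := card_eq_one.1 h1
  have hx' : x ∈ D \ W := by rw [hx]; simp
  rw [mem_sdiff] at hx'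
  have hWn : W.Nonempty := by
    rw [nonempty_iff_ne_empty]
    intro he
    rw [he] at h3
    have h0 : nb G (∅ : Finset V) = ∅ := by
      ext v; simp [mem_nb]
    rw [h0] at h3
    simp at h3
  refine caseA1_51 (D := D) (x := x) hc hf hW hWn h3 ?_ hx'.2 hD3 hT.four ?_ ?_ (by
    unfold lv51
    omega)
  · ext v
    rw [mem_insert]
    constructor
    · intro hv
      by_cases hvW : v ∈ W
      · exact Or.inr hvW
      · have : v ∈ D \ W := mem_sdiff.2 ⟨hv, hvW⟩
        rw [hx, mem_singleton] at this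
        exact Or.inl this
    · rintro (hv | hv)
      · rw [hv]; exact hx'.1
      · exact hsub hv
  · intro p hp
    rw [← lv_eq51]
    exact hT.one p hp
  · intro p hp
    rw [← lv_eq51]
    exact hT.two p hp

end

end MP_761168_co
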