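import Pool.Agent.Lib.MP_761168_co.F.Defs58

/-!
Row P2b of the full answer (page JMfull58.md, section 2): the symmetric form of the tripod
structure (helper70).
-/

namespace MP_761168_co

open Finset

noncomputable section

open scoped Classical

variable {V : Type*} [Fintype V] {G : SimpleGraph V}

/-- Two terminals with the same centre: the second levels are equal or disjoint. -/
theorem eqd_two70 (hc : G.Connected) {D : Finset V} {p p' : V} {x y : ℕ}
    (hd : G.dist p p' = x + y) (hx : 2 ≤ x) (hy : 2 ≤ y)
    (hcen : lev G p x ∩ D = lev G p' y ∩ D) :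
    lev G p 2 ∩ D = lev G p' 2 ∩ D ∨ Disjoint (lev G p 2 ∩ D) (lev G p' 2 ∩ D) := by
  by_cases h : Disjoint (lev G p 2 ∩ D) (lev G p' 2 ∩ D)
  · exact Or.inr h
  · left
    rw [Finset.not_disjoint_iff] at h
    obtain ⟨v, hv1, hv2⟩ := h
    have h1 := mem_lev.1 (mem_inter.1 hv1).1
    have h2 := mem_lev.1 (mem_inter.1 hv2).1
    have h3 := hc.dist_triangle (u := p) (v := v) (w := p')
    rw [SimpleGraph.dist_comm (u := v) (v := p')] at h3
    have hx2 : x = 2 := by omega
    have hy2 : y = 2 := by omega
    rw [hx2, hy2] at hcen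
    exact hcen

theorem triS_of_tri (hc : G.Connected) {D : Finset V} {s u w : V} {al be ga : ℕ}
    (hC : Cut G D s u w) (h : Tri G D s u w al be ga) : TriS G D := by
  have hal := h.al2
  have hbe := h.be2
  have hga := h.ga2
  have hsu := h.ha
  have hsw := h.hb
  have huw := h.hc
  have hus : G.dist u s = be + al := by rw [SimpleGraph.dist_comm, hsu, add_comm]
  have hws : G.dist w s = ga + al := by rw [SimpleGraph.dist_comm, hsw, add_comm]
  have hwu : G.dist w u = ga + be := by rw [SimpleGraph.dist_comm, huw, add_comm]
  have hcuw : lev G u be ∩ D = lev G w ga ∩ D := by rw [← h.cen_u, h.cen_w]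
  refine ⟨?_, ?_, ?_, ?_⟩
  · intro p hp
    rw [hC.eq] at hp
    simp only [mem_insert, mem_singleton] at hp
    rcases hp with rfl | rfl | rfl
    · exact h.one_s
    · exact h.one_u
    · exact h.one_w
  · intro p hp
    rw [hC.eq] at hp
    simp only [mem_insert, mem_singleton] at hp
    rcases hp with rfl | rfl | rfl
    · exact h.two_s 2 le_rfl hal
    · exact h.two_u 2 le_rfl hbe
    · exact h.two_w 2 le_rfl hga
  · intro p hp p' hp' hne
    rw [hC.eq] at hp hp'
    simp only [mem_insert, mem_singleton] at hp hp'
    rcases hp with hp | hp | hp <;> rcases hp' with hp' | hp' | hp' <;>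
      subst hp <;> subst hp' <;> first | exact absurd rfl hne | omega
  · intro p hp p' hp' hne
    rw [hC.eq] at hp hp'
    simp only [mem_insert, mem_singleton] at hp hp'
    rcases hp with hp | hp | hp <;> rcases hp' with hp' | hp' | hp' <;>
      subst hp <;> subst hp' <;> first
        | exact absurd rfl hne
        | exact eqd_two70 hc hsu hal hbe h.cen_u
        | exact eqd_two70 hc hsw hal hga h.cen_w
        | exact eqd_two70 hc huw hbe hga hcuw
        | exact eqd_two70 hc hus hbe hal h.cen_u.symm
        | exact eqd_two70 hc hws hga hal h.cen_w.symm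
        | exact eqd_two70 hc hwu hga hbe hcuw.symm

end

end MP_761168_co
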