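import Pool.Agent.Lib.MP_761168_co.F.P1_58
import Pool.Agent.Lib.MP_761168_co.F.P2_93
import Pool.Agent.Lib.MP_761168_co.F.TriS70
import Pool.Agent.Lib.MP_761168_co.F.P3_10
import Pool.Agent.Lib.MP_761168_co.F.P4_51
import Pool.Agent.Lib.MP_761168_co.F.B1_94
import Pool.Agent.Lib.MP_761168_co.F.B2_29

/-!
Full Jucovic-Moon, assembly (helper58, page JMfull58.md).
-/

namespace MP_761168_co

open Finset

noncomputable section

open scoped Classical

variable {V : Type*} [Fintype V] {G : SimpleGraph V} {r : ℕ}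

/-! ### P6: arithmetic -/

theorem arith_max {n r d q a b c k ex W : ℕ} (hn : n + 5 ≤ 4 * r)
    (f2 : n + q + a + b = d + 4 * r + ex) (hab : a ≤ b) (hbc : b ≤ c)
    (f3 : a + b + c ≤ d + 7) (f3' : (a + b + c) % 2 = 1 → a + b + c ≤ d + 6)
    (hkq : q + k ≤ r) (f5 : ¬ (k < a ∧ k < b))
    (f6 : 4 * (r - k) ≤ W + q + 2 + (a - k) + (b - k)) (hW : W ≤ d) :
    n + 5 = 4 * r ∧ ex = 0 ∧ q + k = r ∧ c = q + 2 ∧ b ≤ q + 2 ∧ a + b + c = d + 7 ∧
      (a + b + c) % 2 = 0 ∧
      ((b ≤ k ∧ a = q + 2 ∧ b = q + 2) ∨ (b ≤ k ∧ a = q + 1 ∧ b = q + 2) ∨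
        (k < b ∧ b = q + 2 ∧ (a = k ∨ a + 1 = k))) := by
  by_cases hb : b ≤ k
  · have ha : a ≤ k := by omega
    have e1 : a - k = 0 := by omega
    have e2 : b - k = 0 := by omega
    rw [e1, e2] at f6
    have hodd : (a + b + c) % 2 = 0 := by omega
    refine ⟨by omega, by omega, by omega, by omega, by omega, by omega, hodd, ?_⟩
    omega
  · have ha : a ≤ k := by omega
    have e1 : a - k = 0 := by omega
    rw [e1] at f6
    have hodd : (a + b + c) % 2 = 0 := by omega
    refine ⟨by omega, by omega, by omega, by omega, by omega, by omega, hodd, ?_⟩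
    omega

theorem arith_next {n r q₀ k₀ d q a b c k ex W : ℕ} (hn : n + 5 = 4 * r)
    (hr0 : q₀ + k₀ = r) (hk0 : q₀ + 2 ≤ k₀) (hev : q₀ % 2 = 0) (hd : d + 2 = 3 * q₀)
    (f2 : n + q + a + b = d + 4 * r + ex) (hab : a ≤ b) (hbc : b ≤ c)
    (f3 : a + b + c ≤ d + 7) (f3' : (a + b + c) % 2 = 1 → a + b + c ≤ d + 6)
    (hkq : q + k ≤ r) (f5 : ¬ (k < a ∧ k < b))
    (f6 : 4 * (r - k) ≤ W + q + 2 + (a - k) + (b - k)) (hW : W ≤ d + 1) : False := by
  by_cases hb : b ≤ k
  · have ha : a ≤ k := by omega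
    have e1 : a - k = 0 := by omega
    have e2 : b - k = 0 := by omega
    rw [e1, e2] at f6
    omega
  · have ha : a ≤ k := by omega
    have e1 : a - k = 0 := by omega
    rw [e1] at f6
    omega

/-! ### existence of light sets -/

theorem exists_light (H : Hyp G r) : ∃ A, Light G r A := by
  by_contra hno
  push Not at hno
  obtain ⟨s⟩ := H.conn.nonempty
  obtain ⟨y, hy⟩ := H.ecc s
  have hr := H.r3
  have hs := H.small
  have hne : ∀ k, 1 ≤ k → s ∈ low G s k := by
    intro k hk
    rw [mem_low, SimpleGraph.dist_self]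
    omega
  have h4 : ∀ k ∈ Finset.Icc 1 (r - 1), 4 ≤ (lev G s k).card := by
    intro k hk
    rw [Finset.mem_Icc] at hk
    have h3 := lev_card H s hk.1 hk.2
    by_contra hc
    have hc3 : (lev G s k).card = 3 := by omega
    have hsub : nb G (low G s k) ⊆ lev G s k := by
      intro v hv
      rw [mem_nb] at hv
      obtain ⟨hv1, x, hx, hxv⟩ := hv
      rw [mem_low] at hv1 hx
      rw [mem_lev]
      have := dist_adj_le H.conn s hxv
      omega
    have hyl : y ∉ low G s k := by rw [mem_low]; omega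
    have hyv : y ∉ lev G s k := by rw [mem_lev]; omega
    have hnb := nb_eq_of_three H.c3 ⟨s, hne k hk.1⟩ hsub hyl hyv hc3
    have hB : low G s k ∪ nb G (low G s k) ≠ univ := by
      intro h
      have : y ∈ low G s k ∪ nb G (low G s k) := by rw [h]; exact mem_univ _
      rw [hnb, mem_union] at this
      exact this.elim hyl hyv
    rcases dichotomy H ⟨s, hne k hk.1⟩ (by rw [hnb]; exact hc3) hB with h | h
    · exact hno _ h
    · exact hno _ h
  have hdis : ∀ i ∈ Finset.Icc 1 (r - 1), ∀ j ∈ Finset.Icc 1 (r - 1), i ≠ j →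
      Disjoint (lev G s i) (lev G s j) := by
    intro i _ j _ hij
    rw [Finset.disjoint_left]
    intro v hv hv'
    rw [mem_lev] at hv hv'
    exact hij (hv.symm.trans hv')
  have h5 : ((Finset.Icc 1 (r - 1)).biUnion (lev G s)).card =
      ∑ k ∈ Finset.Icc 1 (r - 1), (lev G s k).card := Finset.card_biUnion hdis
  have h6 : (Finset.Icc 1 (r - 1)).card • 4 ≤ ∑ k ∈ Finset.Icc 1 (r - 1), (lev G s k).card :=
    Finset.card_nsmul_le_sum _ _ _ h4
  rw [Nat.card_Icc, smul_eq_mul] at h6
  have hs1 : s ∉ insert y ((Finset.Icc 1 (r - 1)).biUnion (lev G s)) := by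
    rw [mem_insert, mem_biUnion]
    rintro (h | ⟨k, hk, h⟩)
    · subst h
      rw [SimpleGraph.dist_self] at hy
      omega
    · rw [Finset.mem_Icc] at hk
      rw [mem_lev, SimpleGraph.dist_self] at h
      omega
  have hy1 : y ∉ (Finset.Icc 1 (r - 1)).biUnion (lev G s) := by
    rw [mem_biUnion]
    rintro ⟨k, hk, h⟩
    rw [Finset.mem_Icc] at hk
    rw [mem_lev] at h
    omega
  have h7 : (insert s (insert y ((Finset.Icc 1 (r - 1)).biUnion (lev G s)))).card ≤
      Fintype.card V := by
    rw [← card_univ]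
    exact card_le_card (subset_univ _)
  rw [card_insert_of_notMem hs1, card_insert_of_notMem hy1, h5] at h7
  omega

theorem exists_max (H : Hyp G r) :
    ∃ D, Light G r D ∧ ∀ A, Light G r A → A.card ≤ D.card := by
  obtain ⟨A, hA⟩ := exists_light H
  obtain ⟨D, hD, hmax⟩ := Finset.exists_max_image
    ((univ : Finset (Finset V)).filter (fun A => Light G r A)) (fun A => A.card)
    ⟨A, by simpa using hA⟩
  rw [mem_filter] at hD
  exact ⟨D, hD.2, fun A hA => hmax A (by simpa using hA)⟩

theorem maxL_of_max (H : Hyp G r) {D : Finset V} (hD : Light G r D)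
    (hmax : ∀ A, Light G r A → A.card ≤ D.card) : MaxL G r D := by
  refine ⟨hD, fun A hA hi => ?_⟩
  have h1 := light_union H hA hD hi
  have h2 := hmax _ h1
  have h3 : D = A ∪ D := eq_of_subset_of_card_le subset_union_right h2
  rw [h3]
  exact subset_union_left

theorem exists_maxL (H : Hyp G r) {A : Finset V} (hA : Light G r A) :
    ∃ D, MaxL G r D ∧ A ⊆ D := by
  obtain ⟨D, hD, hmax⟩ := Finset.exists_max_image
    ((univ : Finset (Finset V)).filter (fun B => Light G r B ∧ A ⊆ B)) (fun B => B.card)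
    ⟨A, by simpa using hA⟩
  rw [mem_filter] at hD
  obtain ⟨-, hDL, hAD⟩ := hD
  refine ⟨D, ⟨hDL, fun B hB hi => ?_⟩, hAD⟩
  have h1 := light_union H hB hDL hi
  have h2 := hmax (B ∪ D) (by simpa using ⟨h1, hAD.trans subset_union_right⟩)
  have h3 : D = B ∪ D := eq_of_subset_of_card_le subset_union_right h2
  rw [h3]
  exact subset_union_left

theorem exists_cut {D : Finset V} (h : (nb G D).card = 3) :
    ∃ s u w, Cut G D s u w ∧ G.dist s u ≤ G.dist s w ∧ G.dist s w ≤ G.dist u w := by
  obtain ⟨x, y, z, hxy, hxz, hyz, he⟩ := card_eq_three.1 h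
  have c1 : Cut G D x y z := ⟨he, hxy, hxz, hyz⟩
  have c2 : Cut G D x z y := ⟨by rw [he]; ext v; simp only [mem_insert, mem_singleton]; tauto,
    hxz, hxy, hyz.symm⟩
  have c3 : Cut G D y x z := ⟨by rw [he]; ext v; simp only [mem_insert, mem_singleton]; tauto,
    hxy.symm, hyz, hxz⟩
  have c4 : Cut G D y z x := ⟨by rw [he]; ext v; simp only [mem_insert, mem_singleton]; tauto,
    hyz, hxy.symm, hxz.symm⟩
  have c5 : Cut G D z x y := ⟨by rw [he]; ext v; simp only [mem_insert, mem_singleton]; tauto,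
    hxz.symm, hyz.symm, hxy⟩
  have c6 : Cut G D z y x := ⟨by rw [he]; ext v; simp only [mem_insert, mem_singleton]; tauto,
    hyz.symm, hxz.symm, hxy.symm⟩
  have e1 := G.dist_comm (u := y) (v := x)
  have e2 := G.dist_comm (u := z) (v := x)
  have e3 := G.dist_comm (u := z) (v := y)
  rcases le_total (G.dist x y) (G.dist x z) with h1 | h1 <;>
  rcases le_total (G.dist x y) (G.dist y z) with h2 | h2 <;>
  rcases le_total (G.dist x z) (G.dist y z) with h3 | h3
  · exact ⟨x, y, z, c1, h1, h3⟩
  · exact ⟨y, x, z, c3, by omega, by omega⟩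
  · exact ⟨x, y, z, c1, h1, h3⟩
  · exact ⟨y, z, x, c4, by omega, by omega⟩
  · exact ⟨x, z, y, c2, by omega, by omega⟩
  · exact ⟨z, x, y, c5, by omega, by omega⟩
  · exact ⟨z, x, y, c5, by omega, by omega⟩
  · exact ⟨z, y, x, c6, by omega, by omega⟩

theorem cut_sum {D : Finset V} {s u w s' u' w' : V} (h : Cut G D s u w)
    (h' : Cut G D s' u' w') :
    G.dist s u + G.dist s w + G.dist u w = G.dist s' u' + G.dist s' w' + G.dist u' w' := by
  have hs : s' ∈ ({s, u, w} : Finset V) := by rw [← h.eq, h'.eq]; simp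
  have hu : u' ∈ ({s, u, w} : Finset V) := by rw [← h.eq, h'.eq]; simp
  have hw : w' ∈ ({s, u, w} : Finset V) := by rw [← h.eq, h'.eq]; simp
  simp only [mem_insert, mem_singleton] at hs hu hw
  have h1 := h'.su
  have h2 := h'.sw
  have h3 := h'.uw
  have e1 := G.dist_comm (u := s) (v := u)
  have e2 := G.dist_comm (u := s) (v := w)
  have e3 := G.dist_comm (u := u) (v := w)
  rcases hs with rfl | rfl | rfl <;> rcases hu with rfl | rfl | rfl <;>
    rcases hw with rfl | rfl | rfl
  all_goals first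
    | exact absurd rfl h1
    | exact absurd rfl h2
    | exact absurd rfl h3
    | omega

/-! ### the numbers of a maximal light set -/

theorem numbers (H : Hyp G r) {D : Finset V} (hM : MaxL G r D) :
    ∃ s u w k, Cut G D s u w ∧ k ∈ QQ G r D s u w ∧ (∀ j ∈ QQ G r D s u w, k ≤ j) ∧
      G.dist s u ≤ G.dist s w ∧ G.dist s w ≤ G.dist u w ∧ (QQ G r D s u w).card + k ≤ r ∧
      1 ≤ k ∧ k ≤ r - 1 := by
  obtain ⟨s, u, w, hC, h1, h2⟩ := exists_cut hM.1.2.1
  have f2 := count_out H hM hC
  have f3 := size_ge H.conn H.c3 hM.1.1 hC hM.1.2.2.1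
  have hn := H.small
  have hne : (QQ G r D s u w).Nonempty := by
    rw [nonempty_iff_ne_empty]
    intro h
    rw [h, card_empty] at f2
    have hd := hM.1.1.card_pos
    have f3' := f3.1
    omega
  refine ⟨s, u, w, (QQ G r D s u w).min' hne, hC, min'_mem _ _, fun j hj => min'_le _ j hj,
    h1, h2, ?_, ?_, ?_⟩
  · have hsub : QQ G r D s u w ⊆ Finset.Icc ((QQ G r D s u w).min' hne) (r - 1) := by
      intro j hj
      rw [Finset.mem_Icc]
      refine ⟨min'_le _ j hj, ?_⟩
      unfold QQ at hj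
      rw [mem_filter, Finset.mem_Icc] at hj
      exact hj.1.2
    have h3 := card_le_card hsub
    rw [Nat.card_Icc] at h3
    have h4 := min'_mem _ hne
    unfold QQ at h4
    rw [mem_filter, Finset.mem_Icc] at h4
    have hr := H.r3
    unfold QQ at h3 ⊢
    omega
  · have h4 := min'_mem _ hne
    unfold QQ at h4
    rw [mem_filter, Finset.mem_Icc] at h4
    exact h4.1.1
  · have h4 := min'_mem _ hne
    unfold QQ at h4
    rw [mem_filter, Finset.mem_Icc] at h4
    exact h4.1.2

theorem qq_three {D : Finset V} {s u w : V} {k : ℕ} (hk : k ∈ QQ G r D s u w) :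
    1 ≤ k ∧ k ≤ r - 1 ∧ (ZZ G D s u w k).card = 3 := by
  unfold QQ at hk
  rw [mem_filter, Finset.mem_Icc] at hk
  exact ⟨hk.1.1, hk.1.2, hk.2⟩

/-- every light set of maximum cardinality has size `a + b + c - 7` -/
theorem max_sum (H : Hyp G r) {D : Finset V} (hD : Light G r D)
    (hmax : ∀ A, Light G r A → A.card ≤ D.card) {s u w : V} (hC : Cut G D s u w) :
    G.dist s u + G.dist s w + G.dist u w = D.card + 7 := by
  have hM := maxL_of_max H hD hmax
  obtain ⟨s', u', w', k, hC', hk, -, h1, h2, hkq, hk1, hk2⟩ := numbers H hM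
  rw [cut_sum hC hC']
  have hZ := qq_three hk
  have hW := (ww_light H hM hC' hZ.1 hZ.2.1 hZ.2.2).1
  have f3 := size_ge H.conn H.c3 hM.1.1 hC' hM.1.2.2.1
  exact (arith_max H.small (count_out H hM hC') h1 h2 f3.1 f3.2 hkq (claim2 H hM hC' hk)
    (ww_card_ge H hM hC' hk) (hmax _ hW)).2.2.2.2.2.1

theorem max_triS (H : Hyp G r) {D : Finset V} (hD : Light G r D)
    (hmax : ∀ A, Light G r A → A.card ≤ D.card) : TriS G D := by
  obtain ⟨s, u, w, hC, -, -⟩ := exists_cut hD.2.1
  obtain ⟨al, be, ga, hT⟩ := tri_of_card H.conn H.c3 hD.1 hC hD.2.2.1 (max_sum H hD hmax hC)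
  exact triS_of_tri H.conn hC hT

theorem zz_eq_lev {D : Finset V} {s u w : V} {k : ℕ} (hu : G.dist s u ≤ k)
    (hw : G.dist s w ≤ k) : ZZ G D s u w k = lev G s k \ D := by
  unfold ZZ
  ext v
  rw [mem_union, mem_filter, mem_insert, mem_singleton]
  constructor
  · rintro (h | ⟨rfl | rfl, h⟩)
    · exact h
    · omega
    · omega
  · exact Or.inl

theorem ww_filter {D : Finset V} {s : V} {k j : ℕ} (hj : k < j) :
    (WW G D s k).filter (fun v => G.dist s v = j) = BL G D s j := by
  unfold WW BL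
  ext v
  simp only [mem_filter, mem_univ, true_and]
  constructor
  · rintro ⟨⟨h1, h2, h3⟩, h4⟩
    exact ⟨h1, h2, h4⟩
  · rintro ⟨h1, h2, h3⟩
    exact ⟨⟨h1, h2, by omega⟩, h3⟩

theorem main_false (H : Hyp G r) : False := by
  obtain ⟨D, hD, hmax⟩ := exists_max H
  have hM := maxL_of_max H hD hmax
  have hS := max_triS H hD hmax
  obtain ⟨s, u, w, k, hC, hk, hmin, h1, h2, hkq, hk1, hk2⟩ := numbers H hM
  obtain ⟨-, -, hZ⟩ := qq_three hk
  obtain ⟨hW, hWn⟩ := ww_light H hM hC hk1 hk2 hZ
  have f2 := count_out H hM hC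
  have f3 := size_ge H.conn H.c3 hM.1.1 hC hM.1.2.2.1
  obtain ⟨hn, hex, hr, hc, hb2, hsum, heven, hcase⟩ := arith_max H.small f2 h1 h2 f3.1 f3.2 hkq
    (claim2 H hM hC hk) (ww_card_ge H hM hC hk) (hmax _ hW)
  have hWc := ww_card_eq H hM hC hk hmin hex
  have hsn : s ∈ nb G D := by rw [hC.eq]; simp
  have hun : u ∈ nb G D := by rw [hC.eq]; simp
  have hwn : w ∈ nb G D := by rw [hC.eq]; simp
  have h4 := hS.four s hsn u hun hC.su
  have hWW : ∀ v ∈ WW G D s k, k < G.dist s v := by
    intro v hv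
    unfold WW at hv
    rw [mem_filter] at hv
    exact hv.2.2.2
  have hsW : s ∉ WW G D s k := by
    intro h
    have := hWW s h
    rw [SimpleGraph.dist_self] at this
    omega
  have hfull : ∀ j, k ≤ j → j ≤ r - 1 → (ZZ G D s u w j).card = 3 := by
    intro j hj hj2
    exact qq_full hmin (by omega) hj hj2 hk1
  rcases hcase with ⟨hbk, ha, hb⟩ | ⟨hbk, ha, hb⟩ | ⟨hkb, hb, ha⟩
  · -- case A1
    have hlev : ∀ z ∈ nb G (WW G D s k), G.dist s z = k := by
      intro z hz
      rw [hWn, zz_eq_lev (by omega) hbk, mem_sdiff, mem_lev] at hz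
      exact hz.1
    obtain ⟨D2, hM2, hWD2⟩ := exists_maxL H hW
    have hD2c := hmax D2 hM2.1
    by_cases hlt : D2.card ≤ (WW G D s k).card
    · have he : WW G D s k = D2 := eq_of_subset_of_card_le hWD2 hlt
      rw [← he] at hM2
      obtain ⟨s', u', w', k', hC', hk', -, h1', h2', hkq', hk1', hk2'⟩ := numbers H hM2
      have hZ' := (qq_three hk').2.2
      have hW' := (ww_light H hM2 hC' hk1' hk2' hZ').1
      have f3' := size_ge H.conn H.c3 hM2.1.1 hC' hM2.1.2.2.1
      have hle := hmax _ hW'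
      exact arith_next hn hr (by omega) (by omega) (by omega) (count_out H hM2 hC') h1' h2' f3'.1
        f3'.2 hkq' (claim2 H hM2 hC' hk') (ww_card_ge H hM2 hC' hk') (by omega)
    · have hmax2 : ∀ A, Light G r A → A.card ≤ D2.card := by
        intro A hA
        have := hmax A hA
        omega
      have hS2 := max_triS H hM2.1 hmax2
      have h5 := tri_plus H.conn hW.2.1 hM2.1.2.1 hWD2 (by omega) hS2 hlev hWW
      rw [ww_filter (by omega)] at h5
      have h6 := bl_card H hC (k := k + 1) (by omega)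
      have h7 := hfull (k + 1) (by omega) (by omega)
      omega
  · -- case A2
    have hlev : ∀ z ∈ nb G (WW G D s k), G.dist s z = k := by
      intro z hz
      rw [hWn, zz_eq_lev (by omega) hbk, mem_sdiff, mem_lev] at hz
      exact hz.1
    have hmaxW : ∀ A, Light G r A → A.card ≤ (WW G D s k).card := by
      intro A hA
      have := hmax A hA
      omega
    have hSW := max_triS H hW hmaxW
    have h5 := tri_lev2 H.conn hW.2.1 hSW hsW hlev hWW
    rw [ww_filter (by omega)] at h5
    have h6 := bl_card H hC (k := k + 2) (by omega)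
    have h7 := hfull (k + 2) (by omega) (by omega)
    rw [if_neg (by omega), if_neg (by omega)] at h6
    omega
  · rcases ha with ha | ha
    · exact case_B1_94 H hM hC hk hmin hex ha hkb (by omega)
    · have hmaxW : ∀ A, Light G r A → A.card ≤ (WW G D s k).card := by
        intro A hA
        have := hmax A hA
        omega
      -- the cut of `W`
      have hwZ : w ∈ ZZ G D s u w k := by
        unfold ZZ
        rw [mem_union, mem_filter]
        exact Or.inr ⟨by simp, hkb⟩
      have hZe : ((ZZ G D s u w k).erase w).card = 2 := by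
        rw [card_erase_of_mem hwZ, hZ]
      obtain ⟨z₁, z₂, hz12, hze⟩ := card_eq_two.1 hZe
      have hzm : ∀ z ∈ (ZZ G D s u w k).erase w, G.dist s z = k := by
        intro z hz
        rw [mem_erase] at hz
        obtain ⟨hzw, hz⟩ := hz
        unfold ZZ at hz
        rw [mem_union, mem_sdiff, mem_lev, mem_filter, mem_insert, mem_singleton] at hz
        rcases hz with ⟨hz, -⟩ | ⟨rfl | rfl, hz⟩
        · exact hz
        · omega
        · exact absurd rfl hzw
      have hz1 : z₁ ∈ (ZZ G D s u w k).erase w := by rw [hze]; simp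
      have hz2 : z₂ ∈ (ZZ G D s u w k).erase w := by rw [hze]; simp
      have hCW : Cut G (WW G D s k) z₁ z₂ w := by
        refine ⟨?_, hz12, (mem_erase.1 hz1).1, (mem_erase.1 hz2).1⟩
        rw [hWn, ← insert_erase hwZ, hze]
        ext v
        simp only [mem_insert, mem_singleton]
        tauto
      have hsz := max_sum H hW hmaxW hCW
      obtain ⟨al, be, ga, hT⟩ := tri_of_card H.conn H.c3 hW.1 hCW hW.2.2.1 hsz
      obtain ⟨y, hy⟩ := H.ecc s
      have hyD : y ∉ D := by
        intro h
        have := hD.2.2.2 s hsn y h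
        omega
      have hyn : y ∉ nb G D := by
        intro h
        have := cut_close H hD.1 hD.2.1 hD.2.2.1 hsn h
        omega
      have hyW : y ∈ WW G D s k := by
        unfold WW
        rw [mem_filter]
        exact ⟨mem_univ _, hyD, hyn, by omega⟩
      refine case_B2 H.conn H.c3 hCW hW.2.2.1 hT (s := s) (y := y) (k := k)
        (q := (QQ G r D s u w).card) (by omega) (by omega) (hzm _ hz1) (hzm _ hz2) hb (by omega)
        (by omega) hWW ?_ hsz hyW (by omega)
      rw [ww_filter (by omega)]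
      have h6 := bl_card H hC (k := k + 2) (by omega)
      have h7 := hfull (k + 2) (by omega) (by omega)
      omega

theorem graph_full {V : Type*} [Fintype V] [Nonempty V] (G : SimpleGraph V) (hc : G.Connected)
    (h3 : C3 G) (r : ℕ) (hr : ∀ v, ∃ w, r ≤ G.dist v w) : 4 * r ≤ Fintype.card V + 4 := by
  by_contra hlt
  push Not at hlt
  by_cases hr3 : 3 ≤ r
  · exact main_false ⟨hc, h3, hr, hr3, by omega⟩
  · -- `r = 2`, at most three vertices
    obtain ⟨v⟩ := ‹Nonempty V›
    obtain ⟨w, hw⟩ := hr v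
    have hr2 : r = 2 := by
      have := Fintype.card_pos_iff.2 ⟨v⟩
      omega
    subst hr2
    have hnb : 3 ≤ (nb G {v}).card := by
      refine h3 {v} ⟨v, mem_singleton_self v⟩ ?_
      intro h
      have : w ∈ ({v} : Finset V) ∪ nb G {v} := by rw [h]; exact mem_univ _
      rw [mem_union, mem_singleton, mem_nb] at this
      rcases this with rfl | ⟨-, x, hx, hxw⟩
      · rw [SimpleGraph.dist_self] at hw
        omega
      · rw [mem_singleton] at hx
        subst hx
        have := SimpleGraph.dist_eq_one_iff_adj.2 hxw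
        omega
    have h1 : (insert v (nb G {v})).card ≤ Fintype.card V := by
      rw [← card_univ]
      exact card_le_card (subset_univ _)
    rw [card_insert_of_notMem (by rw [mem_nb]; simp)] at h1
    omega

end

end MP_761168_co
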